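import Mathlib
import Pool.Agent.Helper75.DF.Defs

/-!
# DF-D4: Weyl criterion for the difference set of a thin set

Proof.  On the circle `AddCircle (1 : ℝ)` let `F` be the finite set of the classes of
`(u' - u) / 2 ^ r`, `u, u' ∈ U` (at most `|U| ^ 2` points; if `U` is empty the count is `0`), and
`f y = ∑_{a ∈ F} max 0 (min 1 (3 - 2 ^ r * dist (y, a)))` (continuous, `0 ≤ f`, `f ≥ 1` at distance
`≤ 2 / 2 ^ r` of `F`), whose integral is at most `|U| ^ 2 * 6 / 2 ^ r < 1 / 8` (each summand is at
most `1` and supported in a ball of radius `3 / 2 ^ r`).  By `span_fourier_closure_eq_top`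
there is a finite combination `P = ∑ c_h fourier h` with `‖f - P‖ ≤ 1 / 16` everywhere; so
`|c_0| = |∫ P| ≤ 1 / 8 + 1 / 16`.  `T` is the set of `|h|`, `h ≠ 0`, occurring in `P` and
`η (1 + ∑ |c_h|) = 1 / 8`.  Then
`hits ≤ ∑_{j < N} f (z j) ≤ N / 16 + |∑_j P (z j)| ≤ N / 16 + (3 / 16) N + ∑_h |c_h| η N
≤ (3 / 8) N < N / 2`
(for `h < 0` the sum is the conjugate of the one for `-h`; `fourier h (z) = e (h z)`).
Compare with FR-P6 (`Pool/Agent/Helper61/FR/St/P6.lean`), which does the same for
`1_U`; any other proof is fine.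
-/

set_option autoImplicit false

open Finset

namespace Helper75.DF

open Pool.Agent.Helper61.FR

namespace D4

open MeasureTheory

lemma e_neg_conj (y : ℝ) : e (-y) = (starRingEnd ℂ) (e y) := by
  unfold e
  rw [← Complex.exp_conj]
  congr 1
  simp only [map_mul, Complex.conj_ofReal, Complex.conj_I, map_ofNat]
  push_cast
  ring

lemma fourier_eq (m : ℤ) (y : ℝ) :
    fourier m (y : AddCircle (1 : ℝ)) = e ((m : ℝ) * y) := by
  rw [fourier_coe_apply]
  unfold e
  congr 1
  push_cast
  ring

/-- the bump at `a` -/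
noncomputable def bp (r : ℕ) (a z : AddCircle (1 : ℝ)) : ℝ :=
  max 0 (min 1 (3 - 2 ^ r * dist z a))

lemma continuous_bp (r : ℕ) (a : AddCircle (1 : ℝ)) : Continuous (bp r a) := by
  unfold bp
  exact continuous_const.max (continuous_const.min
    (continuous_const.sub (continuous_const.mul (continuous_id.dist continuous_const))))

lemma bp_nonneg (r : ℕ) (a z : AddCircle (1 : ℝ)) : 0 ≤ bp r a z := le_max_left _ _

lemma bp_le_indicator (r : ℕ) (a z : AddCircle (1 : ℝ)) :
    bp r a z ≤ (Metric.closedBall a (3 / 2 ^ r)).indicator (fun _ => (1 : ℝ)) z := by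
  by_cases hz : z ∈ Metric.closedBall a (3 / 2 ^ r : ℝ)
  · rw [Set.indicator_of_mem hz]
    exact max_le zero_le_one (min_le_left _ _)
  · rw [Set.indicator_of_notMem hz]
    rw [Metric.mem_closedBall, not_le, div_lt_iff₀ (by positivity)] at hz
    unfold bp
    refine max_le le_rfl ((min_le_right _ _).trans ?_)
    linarith

lemma integral_bp (r : ℕ) (a : AddCircle (1 : ℝ)) : ∫ z, bp r a z ≤ 6 / 2 ^ r := by
  have h1 : ∫ z, bp r a z
      ≤ ∫ z, (Metric.closedBall a (3 / 2 ^ r)).indicator (fun _ => (1 : ℝ)) z := by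
    refine integral_mono ?_ ?_ (fun z => bp_le_indicator r a z)
    · exact (continuous_bp r a).integrable_of_hasCompactSupport
        (HasCompactSupport.of_compactSpace _)
    · exact (integrable_const (1 : ℝ)).indicator measurableSet_closedBall
  refine h1.trans ?_
  rw [integral_indicator measurableSet_closedBall, setIntegral_const, smul_eq_mul, mul_one,
    measureReal_def, AddCircle.volume_closedBall, ENNReal.toReal_ofReal]
  · refine (min_le_right _ _).trans (le_of_eq ?_)
    ring
  · positivity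

lemma bp_ge_one (r : ℕ) (a z : AddCircle (1 : ℝ)) (h : dist z a ≤ 2 / 2 ^ r) : 1 ≤ bp r a z := by
  unfold bp
  rw [le_div_iff₀ (by positivity)] at h
  refine le_max_of_le_right (le_min le_rfl ?_)
  linarith

end D4

open D4 MeasureTheory

theorem criterion (r : ℕ) (U : Finset ℕ) (hU : 48 * U.card ^ 2 < 2 ^ r) :
    ∃ (T : Finset ℕ) (η : ℝ), 0 < η ∧ (∀ h ∈ T, 1 ≤ h) ∧ ∀ (N : ℕ) (z : ℕ → ℝ), 1 ≤ N →
      (∀ h ∈ T, ‖∑ j ∈ range N, e (h * z j)‖ ≤ η * N) → 2 * hits r U N z < N := by
  classical
  let a : ℕ × ℕ → AddCircle (1 : ℝ) := fun p =>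
    ((((p.2 : ℝ) - p.1) / 2 ^ r : ℝ) : AddCircle (1 : ℝ))
  let f : AddCircle (1 : ℝ) → ℝ := fun z => ∑ p ∈ U ×ˢ U, bp r (a p) z
  have hfc : Continuous f := continuous_finsetSum _ fun p _ => continuous_bp r (a p)
  have hf0 : ∀ z, 0 ≤ f z := fun z => Finset.sum_nonneg fun p _ => bp_nonneg r _ z
  have hfi : ∫ z, f z ≤ 1 / 8 := by
    have h1 : ∫ z, f z = ∑ p ∈ U ×ˢ U, ∫ z, bp r (a p) z := by
      refine integral_finsetSum _ fun p _ => ?_
      exact (continuous_bp r (a p)).integrable_of_hasCompactSupport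
        (HasCompactSupport.of_compactSpace _)
    rw [h1]
    calc ∑ p ∈ U ×ˢ U, ∫ z, bp r (a p) z ≤ ∑ p ∈ U ×ˢ U, (6 / 2 ^ r : ℝ) :=
          Finset.sum_le_sum fun p _ => integral_bp r (a p)
      _ = (U.card : ℝ) ^ 2 * 6 / 2 ^ r := by
          rw [Finset.sum_const, Finset.card_product, nsmul_eq_mul]
          push_cast
          ring
      _ ≤ 1 / 8 := by
          rw [div_le_div_iff₀ (by positivity) (by norm_num)]
          have h2 : (48 : ℝ) * (U.card : ℝ) ^ 2 < 2 ^ r := by exact_mod_cast hU
          linarith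
  let fC : C(AddCircle (1 : ℝ), ℂ) := ⟨fun z => (f z : ℂ), Complex.continuous_ofReal.comp hfc⟩
  have hmem : fC ∈ (Submodule.span ℂ (Set.range (@fourier (1 : ℝ)))).topologicalClosure := by
    rw [span_fourier_closure_eq_top]
    trivial
  obtain ⟨P, hP, hdist⟩ : ∃ P ∈ Submodule.span ℂ (Set.range (@fourier (1 : ℝ))),
      dist fC P < 1 / 16 := by
    have h1 : fC ∈ closure (Submodule.span ℂ (Set.range (@fourier (1 : ℝ))) :
      Set C(AddCircle (1 : ℝ), ℂ)) := by
      rw [← Submodule.topologicalClosure_coe]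
      exact hmem
    obtain ⟨P, hP, hd⟩ := Metric.mem_closure_iff.1 h1 (1 / 16) (by norm_num)
    exact ⟨P, hP, hd⟩
  obtain ⟨c, hc⟩ := Finsupp.mem_span_range_iff_exists_finsupp.1 hP
  have hPz : ∀ z : AddCircle (1 : ℝ), P z = ∑ m ∈ c.support, c m * fourier m z := by
    intro z
    rw [← hc, Finsupp.sum]
    simp only [ContinuousMap.coe_sum, Finset.sum_apply, ContinuousMap.smul_apply, smul_eq_mul]
  have hPy : ∀ y : ℝ, P (y : AddCircle (1 : ℝ)) = ∑ m ∈ c.support, c m * e ((m : ℝ) * y) := by
    intro y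
    rw [hPz]
    simp only [fourier_eq]
  have hcloseC : ∀ z : AddCircle (1 : ℝ), ‖(f z : ℂ) - P z‖ ≤ 1 / 16 := by
    intro z
    rw [← dist_eq_norm]
    exact (ContinuousMap.dist_apply_le_dist (f := fC) (g := P) z).trans hdist.le
  -- the constant coefficient
  have hint : ∀ m : ℤ, ∫ z : AddCircle (1 : ℝ), fourier m z = if m = 0 then 1 else 0 := by
    intro m
    have h1 := congrFun (fourierCoeff_fourier (T := (1 : ℝ)) m) 0
    unfold fourierCoeff at h1
    rw [AddCircle.integral_haarAddCircle] at h1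
    simp only [inv_one, one_smul, neg_zero, fourier_zero, smul_eq_mul, one_mul] at h1
    rw [h1]
    by_cases hm : m = 0
    · subst hm; simp
    · rw [if_neg hm, Pi.single_eq_of_ne (Ne.symm hm)]
  have hc0 : ‖c 0‖ ≤ 3 / 16 := by
    have hPint : ∫ z, P z = c 0 := by
      have : (fun z => P z) = fun z => ∑ m ∈ c.support, c m * fourier m z := by
        funext z; exact hPz z
      rw [this, integral_finsetSum]
      · simp only [integral_const_mul, hint]
        rw [Finset.sum_eq_single 0]
        · simp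
        · intro m _ hm; simp [hm]
        · intro h0
          rw [Finsupp.notMem_support_iff] at h0
          simp [h0]
      · intro m _
        exact ((fourier m).continuous.integrable_of_hasCompactSupport
          (HasCompactSupport.of_compactSpace _)).const_mul _
    have h2 : ‖(∫ z, (f z : ℂ)) - ∫ z, P z‖ ≤ 1 / 16 := by
      rw [← integral_sub]
      · have h3 := norm_integral_le_of_norm_le_const (μ := (volume : Measure (AddCircle (1 : ℝ))))
          (C := 1 / 16) (f := fun z => (f z : ℂ) - P z) (Filter.Eventually.of_forall hcloseC)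
        have h4 : (volume : Measure (AddCircle (1 : ℝ))).real Set.univ = 1 := by
          rw [measureReal_def, AddCircle.measure_univ]
          simp
        rw [h4] at h3
        linarith
      · exact (Complex.continuous_ofReal.comp hfc).integrable_of_hasCompactSupport
          (HasCompactSupport.of_compactSpace _)
      · exact P.continuous.integrable_of_hasCompactSupport (HasCompactSupport.of_compactSpace _)
    have h5 : (∫ z, (f z : ℂ)) = ((∫ z, f z : ℝ) : ℂ) := integral_ofReal
    rw [hPint, h5] at h2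
    have h6 : ‖((∫ z, f z : ℝ) : ℂ)‖ ≤ 1 / 8 := by
      rw [Complex.norm_real, Real.norm_eq_abs, abs_of_nonneg (integral_nonneg hf0)]
      exact hfi
    have h7 : c 0 = ((∫ z, f z : ℝ) : ℂ) - (((∫ z, f z : ℝ) : ℂ) - c 0) := by ring
    rw [h7]
    refine (norm_sub_le _ _).trans ?_
    linarith
  set K : ℝ := ∑ m ∈ c.support, ‖c m‖ with hK
  have hK0 : 0 ≤ K := Finset.sum_nonneg fun m _ => norm_nonneg _
  set η : ℝ := 1 / 8 / (1 + K) with hη
  have hηpos : 0 < η := by positivity
  have hKη : K * η ≤ 1 / 8 := by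
    rw [hη, mul_div_assoc', div_le_iff₀ (by positivity)]
    nlinarith
  refine ⟨(c.support.filter (fun m => m ≠ 0)).image Int.natAbs, η, hηpos, ?_, ?_⟩
  · intro m hm
    rw [Finset.mem_image] at hm
    obtain ⟨b, hb, rfl⟩ := hm
    rw [Finset.mem_filter] at hb
    have := hb.2
    omega
  · intro N z hN hz
    have hN0 : (0 : ℝ) < N := by exact_mod_cast hN
    -- character sums
    have hchar : ∀ m ∈ c.support, m ≠ 0 → ‖∑ j ∈ range N, e ((m : ℝ) * z j)‖ ≤ η * N := by
      intro m hm hm0
      have h1 := hz m.natAbs (Finset.mem_image.2 ⟨m, Finset.mem_filter.2 ⟨hm, hm0⟩, rfl⟩)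
      rcases lt_or_gt_of_ne hm0 with hneg | hpos
      · have hcast : ((m.natAbs : ℕ) : ℝ) = -(m : ℝ) := by
          obtain ⟨n, rfl⟩ : ∃ n : ℕ, m = -(n : ℤ) := ⟨m.natAbs, by omega⟩
          simp
        have h2 : ∑ j ∈ range N, e ((m : ℝ) * z j)
            = (starRingEnd ℂ) (∑ j ∈ range N, e (((m.natAbs : ℕ) : ℝ) * z j)) := by
          rw [map_sum]
          refine Finset.sum_congr rfl fun j _ => ?_
          rw [← e_neg_conj, hcast]
          congr 1
          ring
        rw [h2, RCLike.norm_conj]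
        exact h1
      · have hcast : ((m.natAbs : ℕ) : ℝ) = (m : ℝ) := by
          obtain ⟨n, rfl⟩ : ∃ n : ℕ, m = (n : ℤ) := ⟨m.natAbs, by omega⟩
          simp
        rw [hcast] at h1
        exact h1
    -- the count
    have hcount : (hits r U N z : ℝ) ≤ ∑ j ∈ range N, f (z j : AddCircle (1 : ℝ)) := by
      unfold hits
      rw [Finset.card_filter]
      push_cast
      refine Finset.sum_le_sum fun j _ => ?_
      split_ifs with hj
      · obtain ⟨u, hu, u', hu', w, hw⟩ := hj
        have h1 : 1 ≤ bp r (a (u, u')) (z j : AddCircle (1 : ℝ)) := by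
          apply bp_ge_one
          rw [dist_eq_norm, ← AddCircle.coe_sub, UnitAddCircle.norm_eq]
          refine (round_le (z j - ((u' : ℝ) - u) / 2 ^ r) w).trans ?_
          have : z j - ((u' : ℝ) - u) / 2 ^ r - w = z j - w - ((u' : ℝ) - u) / 2 ^ r := by ring
          rw [this]
          exact hw
        exact h1.trans (Finset.single_le_sum (f := fun p => bp r (a p) (z j : AddCircle (1 : ℝ)))
          (fun p _ => bp_nonneg r _ _) (Finset.mem_product.2 ⟨hu, hu'⟩))
      · exact hf0 _
    -- the estimate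
    have hsumP : ‖∑ j ∈ range N, P (z j : AddCircle (1 : ℝ))‖ ≤ 3 / 16 * N + 1 / 8 * N := by
      have h1 : ∑ j ∈ range N, P (z j : AddCircle (1 : ℝ))
          = ∑ m ∈ c.support, c m * ∑ j ∈ range N, e ((m : ℝ) * z j) := by
        simp only [hPy, Finset.mul_sum]
        exact Finset.sum_comm
      rw [h1]
      refine (norm_sum_le _ _).trans ?_
      have h2 : ∀ m ∈ c.support, ‖c m * ∑ j ∈ range N, e ((m : ℝ) * z j)‖
          ≤ (if m = 0 then 3 / 16 * (N : ℝ) else 0) + ‖c m‖ * (η * N) := by
        intro m hm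
        rw [norm_mul]
        by_cases hm0 : m = 0
        · subst hm0
          rw [if_pos rfl]
          have h3 : ‖∑ j ∈ range N, e (((0 : ℤ) : ℝ) * z j)‖ = N := by
            have : ∀ j ∈ range N, e (((0 : ℤ) : ℝ) * z j) = 1 := by
              intro j _
              simp [e]
            rw [Finset.sum_congr rfl this]
            simp
          rw [h3]
          have h4 : ‖c 0‖ * (N : ℝ) ≤ 3 / 16 * N := by gcongr
          have h5 : 0 ≤ ‖c 0‖ * (η * N) := by positivity
          linarith
        · rw [if_neg hm0, zero_add]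
          have := hchar m hm hm0
          gcongr
      refine (Finset.sum_le_sum h2).trans ?_
      rw [Finset.sum_add_distrib, ← Finset.sum_mul, Finset.sum_ite_eq']
      have h6 : K * (η * N) ≤ 1 / 8 * N := by
        rw [← mul_assoc]
        gcongr
      have h7 : (if (0 : ℤ) ∈ c.support then 3 / 16 * (N : ℝ) else 0) ≤ 3 / 16 * N := by
        split_ifs
        · exact le_rfl
        · positivity
      linarith
    have hsumf : ∑ j ∈ range N, f (z j : AddCircle (1 : ℝ)) ≤ 3 / 8 * N := by
      have h1 : ‖(∑ j ∈ range N, (f (z j : AddCircle (1 : ℝ)) : ℂ))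
          - ∑ j ∈ range N, P (z j : AddCircle (1 : ℝ))‖ ≤ 1 / 16 * N := by
        rw [← Finset.sum_sub_distrib]
        refine (norm_sum_le _ _).trans ?_
        calc ∑ j ∈ range N, ‖(f (z j : AddCircle (1 : ℝ)) : ℂ) - P (z j : AddCircle (1 : ℝ))‖
            ≤ ∑ j ∈ range N, (1 / 16 : ℝ) := Finset.sum_le_sum fun j _ => hcloseC _
          _ = 1 / 16 * N := by
              rw [Finset.sum_const, Finset.card_range, nsmul_eq_mul]
              ring
      have h2 : ‖∑ j ∈ range N, (f (z j : AddCircle (1 : ℝ)) : ℂ)‖ ≤ 3 / 8 * N := by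
        have h3 : ∑ j ∈ range N, (f (z j : AddCircle (1 : ℝ)) : ℂ)
            = ((∑ j ∈ range N, (f (z j : AddCircle (1 : ℝ)) : ℂ))
              - ∑ j ∈ range N, P (z j : AddCircle (1 : ℝ)))
              + ∑ j ∈ range N, P (z j : AddCircle (1 : ℝ)) := by ring
        rw [h3]
        refine (norm_add_le _ _).trans ?_
        linarith
      have h4 : (∑ j ∈ range N, (f (z j : AddCircle (1 : ℝ)) : ℂ))
          = ((∑ j ∈ range N, f (z j : AddCircle (1 : ℝ)) : ℝ) : ℂ) := by
        push_cast
        rfl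
      rw [h4, Complex.norm_real, Real.norm_eq_abs] at h2
      exact (le_abs_self _).trans h2
    have hfin : 2 * (hits r U N z : ℝ) < N := by
      have : (hits r U N z : ℝ) ≤ 3 / 8 * N := hcount.trans hsumf
      linarith
    exact_mod_cast hfin

end Helper75.DF
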