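import Mathlib
import Pool.Agent.Helper75.DF.Defs

/-!
# DF-D10: few cells carry almost all the mass

Proof.  Let `L Q = 2 ^ (2 ^ Q)` be the number of cells.  Put `t = 2 ^ (- θ Q)`.

`Sm p t (L Q) ≤ √t + P(p < √t)`: the cells with `p ≥ √t` are at most `1 / √t` many and contribute at
most `t` each, the others contribute at most `p`; and
`∑_{p < √t} p ≤ ent p / log (1 / √t) ≤ C₁ (Q + 1) / ((θ Q / 2) log 2) ≤ 4 C₁ / (θ log 2)` for
`Q ≥ 1` (`negMulLog p ≥ p log (1 / √t)` if `p < √t`; all terms of `ent` are nonnegative as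
`0 ≤ p ≤ 1`).  Choose `θ` with `4 C₁ / (θ log 2) ≤ ε / 4`, then `√t ≤ ε / 4` for `Q` large.

Given `Λ`, choose `C` with `Λ C₂ / C ≤ ε / 2`; by `hS` for `Q ≥ Q₀(C)`, `Q ≥ 1`,
`Sm p t (L (Λ Q)) ≤ Sm p t (L Q) + ∑_{Q ≤ Q' < Λ Q} C₂ / (C Q') ≤ ε / 2 + Λ Q C₂ / (C Q) ≤ ε`.
`G` is the set of the cells of `range (L (Λ Q))` with `p > t` (at most `1 / t = 2 ^ (θ Q)` many);
the other cells have total mass at most `Sm p t (L (Λ Q)) ≤ ε`.
-/

set_option autoImplicit false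

open MeasureTheory Finset

namespace Helper75.DF

open Pool.Agent.Helper61.FR

/-- the masses are at most `1` -/
private theorem D10_le_one {p : ℕ → ℕ → ℝ} (hp : Profile p) {D a : ℕ} (hD : 1 ≤ D)
    (ha : a ∈ range D) : p D a ≤ 1 := by
  rw [← hp.sum_eq_one D hD]
  exact single_le_sum (f := fun a => p D a) (fun i _ => hp.nonneg D i) ha

/-- truncated mass bounded by the entropy -/
private theorem D10_trunc {p : ℕ → ℕ → ℝ} (hp : Profile p) {D : ℕ} (hD : 1 ≤ D) (n : ℕ)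
    (hn : 1 ≤ n) :
    Sm p ((1 / 2 : ℝ) ^ (2 * n)) D ≤ (1 / 2 : ℝ) ^ n + ent p D / (n * Real.log 2) := by
  have hl : 0 < Real.log 2 := Real.log_pos (by norm_num)
  have hn0 : (0 : ℝ) < n := by exact_mod_cast hn
  have hnl : 0 < (n : ℝ) * Real.log 2 := mul_pos hn0 hl
  set s : ℝ := (1 / 2 : ℝ) ^ n with hs
  have hs0 : 0 < s := by positivity
  have hlogs : Real.log s = -(n * Real.log 2) := by
    rw [hs, Real.log_pow, one_div, Real.log_inv]; ring
  have ht : (1 / 2 : ℝ) ^ (2 * n) = s * s := by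
    rw [hs, two_mul, pow_add]
  have key : ∀ a ∈ range D, min (p D a) ((1 / 2 : ℝ) ^ (2 * n)) ≤
      s * p D a + Real.negMulLog (p D a) / (n * Real.log 2) := by
    intro a ha
    have h0 := hp.nonneg D a
    have h1 := D10_le_one hp hD ha
    have hent : 0 ≤ Real.negMulLog (p D a) := Real.negMulLog_nonneg h0 h1
    rcases le_or_gt s (p D a) with h | h
    · calc min (p D a) ((1 / 2 : ℝ) ^ (2 * n)) ≤ (1 / 2 : ℝ) ^ (2 * n) := min_le_right _ _
        _ = s * s := ht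
        _ ≤ s * p D a := mul_le_mul_of_nonneg_left h hs0.le
        _ ≤ _ := le_add_of_nonneg_right (div_nonneg hent hnl.le)
    · calc min (p D a) ((1 / 2 : ℝ) ^ (2 * n)) ≤ p D a := min_le_left _ _
        _ ≤ Real.negMulLog (p D a) / (n * Real.log 2) := by
            rcases h0.eq_or_lt with h2 | h2
            · rw [← h2]; simp
            · rw [le_div_iff₀ hnl, Real.negMulLog]
              have h3 : Real.log (p D a) ≤ Real.log s := Real.log_le_log h2 h.le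
              rw [hlogs] at h3
              nlinarith
        _ ≤ _ := le_add_of_nonneg_left (mul_nonneg hs0.le h0)
  calc Sm p ((1 / 2 : ℝ) ^ (2 * n)) D
      ≤ ∑ a ∈ range D, (s * p D a + Real.negMulLog (p D a) / (n * Real.log 2)) :=
        sum_le_sum key
    _ = s + ent p D / (n * Real.log 2) := by
        rw [sum_add_distrib, ← mul_sum, hp.sum_eq_one D hD, mul_one, ent, sum_div]

/-- growth of the truncated mass over many steps -/
private theorem D10_grow {p : ℕ → ℕ → ℝ} (C₂ : ℝ) (C Q : ℕ) (hC : 1 ≤ C) (hQ : 1 ≤ Q) (t : ℝ)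
    (h : ∀ Q' : ℕ, Q ≤ Q' →
      Sm p t (2 ^ (2 ^ (Q' + 1))) ≤ Sm p t (2 ^ (2 ^ Q')) + C₂ / (C * Q')) (j : ℕ) :
    Sm p t (2 ^ (2 ^ (Q + j))) ≤ Sm p t (2 ^ (2 ^ Q)) + j * (|C₂| / (C * Q)) := by
  have hC0 : (0 : ℝ) < C := by exact_mod_cast hC
  have hQ0 : (0 : ℝ) < Q := by exact_mod_cast hQ
  induction j with
  | zero => simp
  | succ j ih =>
    have h1 := h (Q + j) (Nat.le_add_right _ _)
    have h2 : C₂ / ((C : ℝ) * ((Q + j : ℕ) : ℝ)) ≤ |C₂| / (C * Q) := by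
      have h3 : (Q : ℝ) ≤ ((Q + j : ℕ) : ℝ) := by exact_mod_cast Nat.le_add_right _ _
      have h4 : (0 : ℝ) < ((Q + j : ℕ) : ℝ) := lt_of_lt_of_le hQ0 h3
      calc C₂ / ((C : ℝ) * ((Q + j : ℕ) : ℝ)) ≤ |C₂| / ((C : ℝ) * ((Q + j : ℕ) : ℝ)) :=
            div_le_div_of_nonneg_right (le_abs_self _) (mul_pos hC0 h4).le
        _ ≤ |C₂| / (C * Q) := by
            apply div_le_div_of_nonneg_left (abs_nonneg _) (mul_pos hC0 hQ0)
            exact mul_le_mul_of_nonneg_left h3 hC0.le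
    rw [← add_assoc]
    push_cast
    linarith

theorem few_cells {p : ℕ → ℕ → ℝ} (hp : Profile p) (C₁ C₂ : ℝ)
    (hE : ∀ Q : ℕ, ent p (2 ^ (2 ^ Q)) ≤ C₁ * (Q + 1))
    (hS : ∀ C : ℕ, 1 ≤ C → ∃ Q₀ : ℕ, ∀ Q : ℕ, Q₀ ≤ Q → ∀ t : ℝ, 0 ≤ t →
      Sm p t (2 ^ (2 ^ (Q + 1))) ≤ Sm p t (2 ^ (2 ^ Q)) + C₂ / (C * Q)) (ε : ℝ) (hε : 0 < ε) :
    ∃ θ : ℕ, ∀ Λ : ℕ, 1 ≤ Λ → ∃ Q₀ : ℕ, ∀ Q : ℕ, Q₀ ≤ Q → ∃ G : Finset ℕ,
      G ⊆ range (2 ^ (2 ^ (Λ * Q))) ∧ G.card ≤ 2 ^ (θ * Q) ∧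
      ∑ a ∈ range (2 ^ (2 ^ (Λ * Q))) \ G, p (2 ^ (2 ^ (Λ * Q))) a ≤ ε := by
  have hl : 0 < Real.log 2 := Real.log_pos (by norm_num)
  set K : ℝ := |C₁| + 1 with hK
  have hK0 : 0 < K := by positivity
  have hCK : C₁ ≤ K := by rw [hK]; linarith [le_abs_self C₁]
  obtain ⟨θ', hθ'⟩ := exists_nat_gt (8 * K / (ε * Real.log 2))
  have hθpos : (0 : ℝ) < θ' := lt_trans (by positivity) hθ'
  have hθ1 : 1 ≤ θ' := by exact_mod_cast hθpos
  have hθ2 : 2 * K / (θ' * Real.log 2) ≤ ε / 4 := by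
    rw [div_lt_iff₀ (by positivity)] at hθ'
    rw [div_le_iff₀ (by positivity)]
    nlinarith
  obtain ⟨N, hN⟩ := exists_pow_lt_of_lt_one (show (0 : ℝ) < ε / 4 by positivity)
    (show (1 / 2 : ℝ) < 1 by norm_num)
  refine ⟨2 * θ', fun Λ hΛ => ?_⟩
  obtain ⟨C', hC'⟩ := exists_nat_gt (2 * Λ * |C₂| / ε)
  obtain ⟨C, hC1, hC⟩ : ∃ C : ℕ, 1 ≤ C ∧ 2 * Λ * |C₂| / ε < C :=
    ⟨C' + 1, Nat.le_add_left _ _, by push_cast; linarith⟩
  have hC0 : (0 : ℝ) < C := by exact_mod_cast hC1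
  obtain ⟨Q₁, hQ₁⟩ := hS C hC1
  refine ⟨max (max N Q₁) 1, fun Q hQ => ?_⟩
  have hQN : N ≤ Q := le_trans (le_trans (le_max_left _ _) (le_max_left _ _)) hQ
  have hQQ : Q₁ ≤ Q := le_trans (le_trans (le_max_right _ _) (le_max_left _ _)) hQ
  have hQ1 : 1 ≤ Q := le_trans (le_max_right _ _) hQ
  have hQ0 : (0 : ℝ) < Q := by exact_mod_cast hQ1
  set t : ℝ := (1 / 2 : ℝ) ^ (2 * (θ' * Q)) with ht
  have ht0 : 0 < t := by positivity
  -- the truncated mass at the level `Q`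
  have h1 : Sm p t (2 ^ (2 ^ Q)) ≤ ε / 2 := by
    have h2 := D10_trunc hp (D := 2 ^ (2 ^ Q)) (Nat.one_le_two_pow) (θ' * Q)
      (Nat.mul_pos (by omega) (by omega))
    have h3 : (1 / 2 : ℝ) ^ (θ' * Q) ≤ ε / 4 := by
      calc (1 / 2 : ℝ) ^ (θ' * Q) ≤ (1 / 2 : ℝ) ^ N :=
            pow_le_pow_of_le_one (by norm_num) (by norm_num)
              (le_trans hQN (Nat.le_mul_of_pos_left _ (by omega)))
        _ ≤ ε / 4 := hN.le
    have h4 : ent p (2 ^ (2 ^ Q)) / (((θ' * Q : ℕ) : ℝ) * Real.log 2) ≤ ε / 4 := by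
      refine le_trans ?_ hθ2
      have h5 : ent p (2 ^ (2 ^ Q)) ≤ K * (2 * Q) := by
        refine le_trans (hE Q) ?_
        have h6 : (Q : ℝ) + 1 ≤ 2 * Q := by
          have : (1 : ℝ) ≤ Q := by exact_mod_cast hQ1
          linarith
        calc C₁ * (Q + 1) ≤ K * (Q + 1) := mul_le_mul_of_nonneg_right hCK (by positivity)
          _ ≤ K * (2 * Q) := mul_le_mul_of_nonneg_left h6 hK0.le
      rw [div_le_div_iff₀ (by push_cast; positivity) (by positivity)]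
      push_cast
      calc ent p (2 ^ (2 ^ Q)) * (θ' * Real.log 2) ≤ K * (2 * Q) * (θ' * Real.log 2) :=
            mul_le_mul_of_nonneg_right h5 (by positivity)
        _ = 2 * K * (θ' * Q * Real.log 2) := by ring
    have h7 : Sm p t (2 ^ (2 ^ Q)) ≤ ε / 4 + ε / 4 := by
      rw [ht]; exact le_trans h2 (add_le_add h3 h4)
    linarith
  -- the truncated mass at the level `Λ Q`
  have h2 : Sm p t (2 ^ (2 ^ (Λ * Q))) ≤ ε := by
    obtain ⟨Λ', rfl⟩ : ∃ Λ' : ℕ, Λ = Λ' + 1 := ⟨Λ - 1, by omega⟩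
    have h3 := D10_grow (p := p) C₂ C Q hC1 hQ1 t
      (fun Q' hQ' => hQ₁ Q' (le_trans hQQ hQ') t ht0.le) (Λ' * Q)
    have h4 : Q + Λ' * Q = (Λ' + 1) * Q := by ring
    rw [h4] at h3
    have h5 : ((Λ' * Q : ℕ) : ℝ) * (|C₂| / (C * Q)) ≤ ε / 2 := by
      have h6 : ((Λ' * Q : ℕ) : ℝ) * (|C₂| / (C * Q)) = Λ' * |C₂| / C := by
        push_cast
        field_simp
      rw [h6, div_le_iff₀ hC0]
      rw [div_lt_iff₀ hε] at hC
      push_cast at hC
      nlinarith [abs_nonneg C₂]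
    linarith
  classical
  refine ⟨(range (2 ^ (2 ^ (Λ * Q)))).filter (fun a => t < p (2 ^ (2 ^ (Λ * Q))) a),
    filter_subset _ _, ?_, ?_⟩
  · -- the number of the heavy cells
    set D : ℕ := 2 ^ (2 ^ (Λ * Q)) with hD
    have hD1 : 1 ≤ D := Nat.one_le_two_pow
    have h3 : (((range D).filter (fun a => t < p D a)).card : ℝ) * t ≤ 1 := by
      calc (((range D).filter (fun a => t < p D a)).card : ℝ) * t
          = ∑ a ∈ (range D).filter (fun a => t < p D a), t := by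
            rw [sum_const, nsmul_eq_mul]
        _ ≤ ∑ a ∈ (range D).filter (fun a => t < p D a), p D a :=
            sum_le_sum fun a ha => (mem_filter.1 ha).2.le
        _ ≤ ∑ a ∈ range D, p D a :=
            sum_le_sum_of_subset_of_nonneg (filter_subset _ _) fun a _ _ => hp.nonneg D a
        _ = 1 := hp.sum_eq_one D hD1
    have h4 : (((range D).filter (fun a => t < p D a)).card : ℝ) ≤ 2 ^ (2 * θ' * Q) := by
      have h5 : t * 2 ^ (2 * θ' * Q) = 1 := by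
        rw [ht, mul_assoc, ← mul_pow]; norm_num
      calc (((range D).filter (fun a => t < p D a)).card : ℝ)
          = (((range D).filter (fun a => t < p D a)).card : ℝ) * t * 2 ^ (2 * θ' * Q) := by
            rw [mul_assoc, h5, mul_one]
        _ ≤ 1 * 2 ^ (2 * θ' * Q) := mul_le_mul_of_nonneg_right h3 (by positivity)
        _ = _ := one_mul _
    exact_mod_cast h4
  · set D : ℕ := 2 ^ (2 ^ (Λ * Q)) with hD
    refine le_trans ?_ h2
    calc ∑ a ∈ range D \ (range D).filter (fun a => t < p D a), p D a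
        ≤ ∑ a ∈ range D \ (range D).filter (fun a => t < p D a), min (p D a) t := by
          refine sum_le_sum fun a ha => ?_
          rw [mem_sdiff, mem_filter, not_and, not_lt] at ha
          exact le_min le_rfl (ha.2 ha.1)
      _ ≤ Sm p t D :=
          sum_le_sum_of_subset_of_nonneg sdiff_subset fun a _ _ =>
            le_min (hp.nonneg D a) ht0.le

end Helper75.DF
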