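import Mathlib
import Pool.Agent.Helper75.DF.Defs
import Pool.Agent.Helper61.FR.St.P10

/-!
# DF-D11: approximately periodic orbits have large energy along residue classes

Proof.  Put `u j = e (m 3 ^ j x)`.  For `a < p` let `A = {j < N | j % p = a}`; its cardinality is at
least `N / (2 p)` (as `2 p ≤ N`: at least `⌊N / p⌋ ≥ N / (2 p)`), and for `j ∈ A`, `j = a + p i`,
`‖u j - u a‖ ≤ i δ ≤ N δ ≤ (1 - ‖c‖) / 2` (telescoping).  So
`‖∑_{j ∈ A} (u j - c)‖ ≥ |A| (‖u a - c‖ - N δ) ≥ |A| (1 - ‖c‖) / 2 ≥ N (1 - ‖c‖) / (4 p)`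
because `‖u a‖ = 1`.  Hence `Rp ≥ (p / N ^ 2) * p * (N (1 - ‖c‖) / (4 p)) ^ 2`.
-/

set_option autoImplicit false

open MeasureTheory Finset

namespace Helper75.DF

open Pool.Agent.Helper61.FR

theorem D11_tel (m N p : ℕ) (x δ : ℝ)
    (hx : ∀ j, j + p < N → ‖e (m * (3 ^ (j + p) * x)) - e (m * (3 ^ j * x))‖ ≤ δ) (a : ℕ) :
    ∀ i : ℕ, a + p * i < N → ‖e (m * (3 ^ (a + p * i) * x)) - e (m * (3 ^ a * x))‖ ≤ i * δ := by
  intro i
  induction i with
  | zero => intro _; simp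
  | succ i ih =>
    intro h
    have h1 : a + p * (i + 1) = (a + p * i) + p := by ring
    rw [h1] at h ⊢
    have h2 := hx (a + p * i) h
    have h3 := ih (by omega)
    calc ‖e (m * (3 ^ (a + p * i + p) * x)) - e (m * (3 ^ a * x))‖
        = ‖(e (m * (3 ^ (a + p * i + p) * x)) - e (m * (3 ^ (a + p * i) * x))) +
            (e (m * (3 ^ (a + p * i) * x)) - e (m * (3 ^ a * x)))‖ := by congr 1; ring
      _ ≤ δ + i * δ := (norm_add_le _ _).trans (add_le_add h2 h3)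
      _ = ((i + 1 : ℕ) : ℝ) * δ := by push_cast; ring

theorem D11_card (N p a : ℕ) (ha : a < p) (hpN : 2 * p ≤ N) :
    (N : ℝ) ≤ 2 * p * ((range N).filter (fun j => j % p = a)).card := by
  have hp : 0 < p := by omega
  have h1 : N / p ≤ ((range N).filter (fun j => j % p = a)).card := by
    rw [← card_range (N / p)]
    refine card_le_card_of_injOn (fun i => a + p * i) ?_ ?_
    · intro i hi
      have hi' : i < N / p := by simpa using hi
      have h2 : p * (N / p) ≤ N := Nat.mul_div_le N p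
      have h3 : p * (i + 1) ≤ p * (N / p) := Nat.mul_le_mul_left _ hi'
      have h4 : p * (i + 1) = p * i + p := by ring
      simp only [coe_filter, mem_range, Set.mem_setOf_eq]
      refine ⟨by omega, ?_⟩
      rw [Nat.add_mul_mod_self_left, Nat.mod_eq_of_lt ha]
    · intro i _ j _ hij
      have h5 : p * i = p * j := by simpa using hij
      exact Nat.eq_of_mul_eq_mul_left hp h5
  have h2 : N < p * (N / p) + p := by
    have := Nat.div_add_mod N p
    have h3 := Nat.mod_lt N hp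
    omega
  have h3 : 1 ≤ N / p := (Nat.one_le_div_iff hp).2 (by omega)
  have h4 : p ≤ p * (N / p) := Nat.le_mul_of_pos_right _ (by omega)
  have h5 : N ≤ 2 * (p * (N / p)) := by omega
  have h6 : p * (N / p) ≤ p * ((range N).filter (fun j => j % p = a)).card :=
    Nat.mul_le_mul_left _ h1
  have h7 : N ≤ 2 * (p * ((range N).filter (fun j => j % p = a)).card) := by omega
  calc (N : ℝ) ≤ ((2 * (p * ((range N).filter (fun j => j % p = a)).card) : ℕ) : ℝ) := by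
        exact_mod_cast h7
    _ = _ := by push_cast; ring

theorem D11_class (c : ℂ) (hc : ‖c‖ ≤ 1) (m N p : ℕ) (x δ : ℝ) (hδ0 : 0 ≤ δ) (hpN : 2 * p ≤ N)
    (hδ : N * δ ≤ (1 - ‖c‖) / 2)
    (hx : ∀ j, j + p < N → ‖e (m * (3 ^ (j + p) * x)) - e (m * (3 ^ j * x))‖ ≤ δ)
    (a : ℕ) (ha : a < p) :
    (N * (1 - ‖c‖) / (4 * p)) ^ 2 ≤
      ‖∑ j ∈ (range N).filter (fun j => j % p = a), (e (m * (3 ^ j * x)) - c)‖ ^ 2 := by
  have hp : 0 < p := by omega
  have hpR : (0 : ℝ) < p := by exact_mod_cast hp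
  set A := (range N).filter (fun j => j % p = a) with hA
  have hcard : (N : ℝ) ≤ 2 * p * (A.card : ℝ) := D11_card N p a ha hpN
  have hc0 : 0 ≤ 1 - ‖c‖ := by linarith
  have hj : ∀ j ∈ A, ‖e (m * (3 ^ j * x)) - e (m * (3 ^ a * x))‖ ≤ (1 - ‖c‖) / 2 := by
    intro j hj
    rw [hA, mem_filter, mem_range] at hj
    obtain ⟨hjN, hja⟩ := hj
    have h1 : j = a + p * (j / p) := by
      have := Nat.mod_add_div j p
      omega
    have h2 := D11_tel m N p x δ hx a (j / p) (by rw [← h1]; exact hjN)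
    rw [← h1] at h2
    refine h2.trans ?_
    have h3 : ((j / p : ℕ) : ℝ) ≤ N := by
      have : j / p ≤ N := (Nat.div_le_self j p).trans hjN.le
      exact_mod_cast this
    exact (mul_le_mul_of_nonneg_right h3 hδ0).trans hδ
  have hsum : ∑ j ∈ A, (e (m * (3 ^ j * x)) - c) =
      (A.card : ℂ) * (e (m * (3 ^ a * x)) - c) +
        ∑ j ∈ A, (e (m * (3 ^ j * x)) - e (m * (3 ^ a * x))) := by
    rw [sum_sub_distrib, sum_sub_distrib, sum_const, sum_const]
    simp only [nsmul_eq_mul]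
    ring
  have hlow : (A.card : ℝ) * ((1 - ‖c‖) / 2) ≤ ‖∑ j ∈ A, (e (m * (3 ^ j * x)) - c)‖ := by
    rw [hsum]
    have h1 : ‖∑ j ∈ A, (e (m * (3 ^ j * x)) - e (m * (3 ^ a * x)))‖ ≤
        (A.card : ℝ) * ((1 - ‖c‖) / 2) := by
      refine (norm_sum_le _ _).trans ?_
      refine (sum_le_sum hj).trans ?_
      rw [sum_const, nsmul_eq_mul]
    have h2 : (A.card : ℝ) * (1 - ‖c‖) ≤ ‖(A.card : ℂ) * (e (m * (3 ^ a * x)) - c)‖ := by
      rw [norm_mul, Complex.norm_natCast]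
      refine mul_le_mul_of_nonneg_left ?_ (Nat.cast_nonneg _)
      have h3 := norm_sub_norm_le (e (m * (3 ^ a * x))) c
      rwa [norm_e] at h3
    have h4 := norm_sub_le_norm_add ((A.card : ℂ) * (e (m * (3 ^ a * x)) - c))
      (∑ j ∈ A, (e (m * (3 ^ j * x)) - e (m * (3 ^ a * x))))
    linarith
  have h5 : N * (1 - ‖c‖) / (4 * p) ≤ ‖∑ j ∈ A, (e (m * (3 ^ j * x)) - c)‖ := by
    refine le_trans ?_ hlow
    rw [div_le_iff₀ (by positivity)]
    calc (N : ℝ) * (1 - ‖c‖) ≤ 2 * p * (A.card : ℝ) * (1 - ‖c‖) :=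
          mul_le_mul_of_nonneg_right hcard hc0
      _ = (A.card : ℝ) * ((1 - ‖c‖) / 2) * (4 * p) := by ring
  exact pow_le_pow_left₀ (by positivity) h5 2

theorem Rp_lower (c : ℂ) (hc : ‖c‖ ≤ 1) (m N p : ℕ) (x δ : ℝ) (hp : 1 ≤ p) (hpN : 2 * p ≤ N)
    (hδ : N * δ ≤ (1 - ‖c‖) / 2)
    (hx : ∀ j, j + p < N → ‖e (m * (3 ^ (j + p) * x)) - e (m * (3 ^ j * x))‖ ≤ δ) :
    (1 - ‖c‖) ^ 2 / 16 ≤ Rp c m N p x := by
  have hδ0 : 0 ≤ δ := (norm_nonneg _).trans (hx 0 (by omega))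
  have hpR : (0 : ℝ) < p := by exact_mod_cast hp
  have hNR : (0 : ℝ) < N := by
    have : 0 < N := by omega
    exact_mod_cast this
  have h1 : (p : ℝ) * (N * (1 - ‖c‖) / (4 * p)) ^ 2 ≤ ∑ a ∈ range p,
      ‖∑ j ∈ (range N).filter (fun j => j % p = a), (e (m * (3 ^ j * x)) - c)‖ ^ 2 := by
    calc (p : ℝ) * (N * (1 - ‖c‖) / (4 * p)) ^ 2
        = ∑ a ∈ range p, (N * (1 - ‖c‖) / (4 * p)) ^ 2 := by
          rw [sum_const, card_range, nsmul_eq_mul]
      _ ≤ _ := sum_le_sum fun a ha =>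
          D11_class c hc m N p x δ hδ0 hpN hδ hx a (mem_range.1 ha)
  unfold Rp
  calc (1 - ‖c‖) ^ 2 / 16 = (p / N ^ 2 : ℝ) * ((p : ℝ) * (N * (1 - ‖c‖) / (4 * p)) ^ 2) := by
        field_simp
        ring
    _ ≤ _ := mul_le_mul_of_nonneg_left h1 (by positivity)

end Helper75.DF
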