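import Mathlib
import Pool.Agent.Helper75.DF.Defs
import Pool.Agent.Helper61.FR.St.P10
import Pool.Agent.Helper61.FR.St.P12

/-!
# DF-D12: mean energy along residue classes

Proof.  Put `u j = e (m 3 ^ j x)`, `φ = cf μ m`, which is the mean of each `u j` (`cf_mul` with
`i = 0`).  The mean of `(u j - φ) * star (u j' - φ)` is
`cf μ (m (3 ^ j - 3 ^ j')) - ‖φ‖ ^ 2`, whose norm is `cb μ m |j - j'|` (`cf_mul`, `cf_neg`; see
`variance_eq`, `cd_mul`, `cd_neg`, `sum_dist_le` in `Pool.Agent.Helper61.FR.St.P12`).  So the mean of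
`Rp` is at most `(p / N ^ 2) ∑_{j, j' < N} cb μ m |j - j'| ≤ (p / N ^ 2) * N * 2 ∑_{b < N} cb μ m b`.
-/

set_option autoImplicit false

open MeasureTheory Finset

namespace Helper75.DF

open Pool.Agent.Helper61.FR

theorem continuous_Rp (c : ℂ) (m N p : ℕ) : Continuous (Rp c m N p) := by
  unfold Rp
  refine Continuous.mul continuous_const ?_
  refine continuous_finsetSum _ fun a _ => ?_
  refine Continuous.pow (Continuous.norm ?_) 2
  refine continuous_finsetSum _ fun j _ => ?_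
  exact (continuous_e.comp (by fun_prop)).sub continuous_const

theorem Rp_nonneg (c : ℂ) (m N p : ℕ) (x : ℝ) : 0 ≤ Rp c m N p x := by
  unfold Rp
  positivity

/-- `Rp` has period `1`. -/
theorem Rp_fract (c : ℂ) (m N p : ℕ) (x : ℝ) : Rp c m N p (Int.fract x) = Rp c m N p x := by
  unfold Rp
  congr 1
  refine Finset.sum_congr rfl fun a _ => ?_
  congr 2
  refine Finset.sum_congr rfl fun j _ => ?_
  congr 1
  have h1 : (m : ℝ) * (3 ^ j * x) = m * (3 ^ j * Int.fract x) +
      ((m * (3 ^ j * ⌊x⌋) : ℤ) : ℝ) := by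
    conv_lhs => rw [← Int.fract_add_floor x]
    push_cast
    ring
  rw [h1, e_add, e_int, mul_one]

theorem int_u {μ : Measure ℝ} (h : Inv23 μ) (m j : ℕ) :
    ∫ x, e (m * (3 ^ j * x)) ∂μ = cf μ m := by
  rw [← cf_mul h 0 j m]
  unfold cf
  refine integral_congr_ae (Filter.Eventually.of_forall fun x => ?_)
  change e (m * (3 ^ j * x)) = e (((2 ^ 0 * 3 ^ j * (m : ℤ) : ℤ) : ℝ) * x)
  congr 1
  push_cast
  ring

theorem mul_star_u (m j j' : ℕ) (x : ℝ) :
    e (m * (3 ^ j * x)) * star (e (m * (3 ^ j' * x))) =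
      e (((m * (3 ^ j - 3 ^ j') : ℤ) : ℝ) * x) := by
  rw [← e_neg, ← e_add]
  congr 1
  push_cast
  ring

theorem integrable_pair {μ : Measure ℝ} (h : Inv23 μ) (c : ℂ) (m j j' : ℕ) :
    Integrable (fun x : ℝ => (e (m * (3 ^ j * x)) - c) * star (e (m * (3 ^ j' * x)) - c)) μ := by
  have := h.prob
  have hc : Continuous fun x : ℝ =>
      (e (m * (3 ^ j * x)) - c) * star (e (m * (3 ^ j' * x)) - c) := by
    refine Continuous.mul ?_ (Continuous.star ?_)
    · exact (continuous_e.comp (by fun_prop)).sub continuous_const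
    · exact (continuous_e.comp (by fun_prop)).sub continuous_const
  refine Integrable.of_bound hc.aestronglyMeasurable ((1 + ‖c‖) * (1 + ‖c‖))
    (Filter.Eventually.of_forall fun x => ?_)
  rw [norm_mul, norm_star]
  have hb : ∀ y : ℝ, ‖e y - c‖ ≤ 1 + ‖c‖ := fun y => by
    refine (norm_sub_le _ _).trans ?_
    rw [norm_e]
  exact mul_le_mul (hb _) (hb _) (norm_nonneg _) (by positivity)

theorem integral_pair {μ : Measure ℝ} (h : Inv23 μ) (m j j' : ℕ) :
    ∫ x, (e (m * (3 ^ j * x)) - cf μ m) * star (e (m * (3 ^ j' * x)) - cf μ m) ∂μ =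
      cf μ (m * (3 ^ j - 3 ^ j')) - ((‖cf μ m‖ ^ 2 : ℝ) : ℂ) := by
  have := h.prob
  set c := cf μ m with hcd
  have hi : ∀ i : ℕ, Integrable (fun x : ℝ => e (m * (3 ^ i * x))) μ := fun i =>
    integrable_e (by fun_prop)
  have his : ∀ i : ℕ, Integrable (fun x : ℝ => star (e (m * (3 ^ i * x)))) μ := fun i =>
    (Complex.conjCLE : ℂ →L[ℝ] ℂ).integrable_comp (hi i)
  have hpp : Integrable (fun x : ℝ => e (m * (3 ^ j * x)) * star (e (m * (3 ^ j' * x)))) μ := by
    simp only [mul_star_u]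
    exact integrable_e (by fun_prop)
  have h2 : ∀ x : ℝ, (e (m * (3 ^ j * x)) - c) * star (e (m * (3 ^ j' * x)) - c) =
      e (m * (3 ^ j * x)) * star (e (m * (3 ^ j' * x))) - e (m * (3 ^ j * x)) * star c -
        (c * star (e (m * (3 ^ j' * x))) - c * star c) := by
    intro x
    rw [star_sub]
    ring
  simp only [h2]
  rw [integral_sub, integral_sub, integral_sub, integral_mul_const, integral_const_mul]
  · have h3 : ∫ x, e (m * (3 ^ j * x)) ∂μ = c := int_u h m j
    have h4 : ∫ x, star (e (m * (3 ^ j' * x))) ∂μ = star c := by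
      have h5 := integral_conj (μ := μ) (f := fun x : ℝ => e (m * (3 ^ j' * x)))
      change ∫ x, (starRingEnd ℂ) (e (m * (3 ^ j' * x))) ∂μ = _
      rw [h5, int_u h m j']
      rfl
    have h6 : ∫ x, e (m * (3 ^ j * x)) * star (e (m * (3 ^ j' * x))) ∂μ =
        cf μ (m * (3 ^ j - 3 ^ j')) := by
      simp only [mul_star_u]
      rfl
    have h7 : ((‖c‖ ^ 2 : ℝ) : ℂ) = c * star c := by
      change _ = c * (starRingEnd ℂ) c
      rw [Complex.mul_conj, Complex.normSq_eq_norm_sq]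
    rw [h3, h4, h6, h7]
    simp
  · exact (his j').const_mul c
  · exact integrable_const _
  · exact hpp
  · exact (hi j).mul_const _
  · exact hpp.sub ((hi j).mul_const _)
  · exact ((his j').const_mul c).sub (integrable_const _)

theorem cd_dist {μ : Measure ℝ} (h : Inv23 μ) (m j j' : ℕ) :
    cd μ m (m * (3 ^ j - 3 ^ j')) = cb μ m ((j - j') + (j' - j)) := by
  have hb : ∀ b : ℕ, cb μ m b = cd μ m (m * (3 ^ b - 1)) := fun b => rfl
  rcases le_total j' j with hk | hk
  · obtain ⟨b, rfl⟩ := Nat.exists_eq_add_of_le hk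
    have e2 : (j' + b - j') + (j' - (j' + b)) = b := by omega
    rw [e2, hb]
    have e3 : (m * (3 ^ (j' + b) - 3 ^ j') : ℤ) = 2 ^ 0 * 3 ^ j' * (m * (3 ^ b - 1)) := by ring
    rw [e3, cd_mul h]
  · obtain ⟨b, rfl⟩ := Nat.exists_eq_add_of_le hk
    have e2 : (j - (j + b)) + (j + b - j) = b := by omega
    rw [e2, hb]
    have e3 : (m * (3 ^ j - 3 ^ (j + b)) : ℤ) = 2 ^ 0 * 3 ^ j * (-(m * (3 ^ b - 1))) := by ring
    rw [e3, cd_mul h, cd_neg]

theorem cb_nonneg (μ : Measure ℝ) (m b : ℕ) : 0 ≤ cb μ m b := norm_nonneg _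

theorem norm_sq_sum (J : Finset ℕ) (v : ℕ → ℂ) :
    ‖∑ j ∈ J, v j‖ ^ 2 = ∑ j ∈ J, ∑ j' ∈ J, (v j * star (v j')).re := by
  have h1 : ((‖∑ j ∈ J, v j‖ ^ 2 : ℝ) : ℂ) = (∑ j ∈ J, v j) * star (∑ j ∈ J, v j) := by
    change _ = _ * (starRingEnd ℂ) _
    rw [Complex.mul_conj, Complex.normSq_eq_norm_sq]
  have h2 : (∑ j ∈ J, v j) * star (∑ j ∈ J, v j) = ∑ j ∈ J, ∑ j' ∈ J, v j * star (v j') := by
    rw [star_sum, Finset.sum_mul]
    exact Finset.sum_congr rfl fun j _ => Finset.mul_sum _ _ _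
  rw [h2] at h1
  have h3 := congrArg Complex.re h1
  rw [Complex.ofReal_re] at h3
  rw [h3]
  simp only [Complex.re_sum]

theorem integral_Rp {μ : Measure ℝ} (h : Inv23 μ) (m N p : ℕ) (hN : 1 ≤ N) (hp : 1 ≤ p) :
    ∫ x, Rp (cf μ m) m N p x ∂μ ≤ p / N * (2 * ∑ b ∈ range N, cb μ m b) := by
  have := h.prob
  set J : ℕ → Finset ℕ := fun a => (range N).filter (fun j => j % p = a) with hJ
  set v : ℝ → ℕ → ℂ := fun x j => e (m * (3 ^ j * x)) - cf μ m with hv
  have hg : ∀ j j', Integrable (fun x => (v x j * star (v x j')).re) μ := fun j j' =>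
    (integrable_pair h (cf μ m) m j j').re
  have hgi : ∀ j j', ∫ x, (v x j * star (v x j')).re ∂μ ≤ cb μ m ((j - j') + (j' - j)) := by
    intro j j'
    have h1 : ∫ x, (v x j * star (v x j')).re ∂μ = (∫ x, v x j * star (v x j') ∂μ).re :=
      integral_re (integrable_pair h (cf μ m) m j j')
    rw [h1, integral_pair h, ← cd_dist h]
    exact Complex.re_le_norm _
  have hR : ∀ x, Rp (cf μ m) m N p x = (p / N ^ 2 : ℝ) * ∑ a ∈ range p, ∑ j ∈ J a, ∑ j' ∈ J a,
      (v x j * star (v x j')).re := by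
    intro x
    unfold Rp
    congr 1
    exact Finset.sum_congr rfl fun a _ => norm_sq_sum (J a) (v x)
  have h2 : ∫ x, Rp (cf μ m) m N p x ∂μ = (p / N ^ 2 : ℝ) * ∑ a ∈ range p, ∑ j ∈ J a,
      ∑ j' ∈ J a, ∫ x, (v x j * star (v x j')).re ∂μ := by
    simp only [hR]
    rw [integral_const_mul]
    congr 1
    rw [integral_finsetSum _ fun a _ => integrable_finsetSum _ fun j _ =>
      integrable_finsetSum _ fun j' _ => hg j j']
    refine Finset.sum_congr rfl fun a _ => ?_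
    rw [integral_finsetSum _ fun j _ => integrable_finsetSum _ fun j' _ => hg j j']
    refine Finset.sum_congr rfl fun j _ => ?_
    rw [integral_finsetSum _ fun j' _ => hg j j']
  have h3 : ∑ a ∈ range p, ∑ j ∈ J a, ∑ j' ∈ J a, ∫ x, (v x j * star (v x j')).re ∂μ ≤
      N * (2 * ∑ b ∈ range N, cb μ m b) := by
    calc ∑ a ∈ range p, ∑ j ∈ J a, ∑ j' ∈ J a, ∫ x, (v x j * star (v x j')).re ∂μ
        ≤ ∑ a ∈ range p, ∑ j ∈ J a, ∑ j' ∈ range N, cb μ m ((j - j') + (j' - j)) := by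
          refine Finset.sum_le_sum fun a _ => Finset.sum_le_sum fun j _ => ?_
          refine (Finset.sum_le_sum fun j' _ => hgi j j').trans ?_
          exact Finset.sum_le_sum_of_subset_of_nonneg (Finset.filter_subset _ _)
            fun i _ _ => cb_nonneg _ _ _
      _ ≤ ∑ a ∈ range p, ∑ j ∈ J a, 2 * ∑ b ∈ range N, cb μ m b := by
          refine Finset.sum_le_sum fun a _ => Finset.sum_le_sum fun j hj => ?_
          have hjN : j < N := Finset.mem_range.1 (Finset.mem_filter.1 hj).1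
          exact sum_dist_le (fun b => cb μ m b) (fun b => cb_nonneg _ _ _) N j hjN
      _ = ∑ j ∈ range N, 2 * ∑ b ∈ range N, cb μ m b := by
          refine Finset.sum_fiberwise_of_maps_to (fun j _ => ?_) _
          exact Finset.mem_range.2 (Nat.mod_lt _ hp)
      _ = N * (2 * ∑ b ∈ range N, cb μ m b) := by
          rw [Finset.sum_const, card_range, nsmul_eq_mul]
  rw [h2]
  have hN0 : (0 : ℝ) < N := by exact_mod_cast hN
  have h4 : (0 : ℝ) ≤ p / N ^ 2 := by positivity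
  refine (mul_le_mul_of_nonneg_left h3 h4).trans (le_of_eq ?_)
  field_simp

end Helper75.DF
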