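import Mathlib
import Pool.Agent.Helper75.DF.Defs
import Pool.Agent.Helper61.FR.St.P1
import Pool.Agent.Helper75.DF.St.D11
import Pool.Agent.Helper75.DF.St.D12

/-!
# DF-D13: pigeonhole against decay of correlations

Proof of `pigeonhole`.  For `x ∈ [0, 1)` let `n x` be the number of the `b < B` such that the cell of
`fract (3 ^ b x)` is not in `G`.  Its mean is at most `B / 20` (invariance under `×3`, `hmass`), so
`μ (n x ≥ B / 2) ≤ 1 / 10`.  If `n x < B / 2` then more than `B / 2 ≥ G.card` of the `b < B` give a cell in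
`G`, so two of them, `b < b'`, give the same cell, and then
`|fract (3 ^ b x) - fract (3 ^ b' x)| ≤ 2 ^ (- L)`.

Proof of `false_of_few`.  Let `‖cf μ m‖ < 1` and `δ₀ = (1 - ‖cf μ m‖) ^ 2 / 16`.  Choose `Λ` with
`Λ κ > 2 θ + 1`, `Q` large, `L = 2 ^ (Λ Q)` (a multiple of `4`), `N = L / 4`, `B = 2 * 2 ^ (θ Q) + 1`.
By `pigeonhole`
with probability at least `9 / 10` there are `b < b' < B` and an integer `z` with
`|3 ^ b x - 3 ^ b' x - z| ≤ 2 ^ (- L)`.  Put `y = fract (3 ^ B x)`, `p = b' - b`.  For `j + p < N`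
`3 ^ (j + p) y - 3 ^ j y` is modulo `1` equal to `3 ^ (j + B - b) (3 ^ b' x - 3 ^ b x)`, so it is up to
an integer at most `3 ^ (N + B) 2 ^ (- L) ≤ 3 ^ (L / 2) / 2 ^ L = (3 / 4) ^ (L / 2)` in absolute value,
and `Rp_lower` applies with `δ = 2 π m (3 / 4) ^ (L / 2)` (`norm_e_sub_le`).  So
`δ₀ ≤ Rp (cf μ m) m N p y` for some `1 ≤ p < B`.  By invariance (`preserving_two_three` with `n = 0`)
and Markov's inequality
`9 / 10 ≤ ∑_{1 ≤ p < B} μ (δ₀ ≤ Rp) ≤ ∑_{p < B} δ₀⁻¹ (p / N) 2 D N ^ (1 - κ) ≤ 2 D δ₀⁻¹ B ^ 2 N ^ (- κ)`,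
which tends to `0` as `Q → ∞`.
-/

set_option autoImplicit false

open MeasureTheory Finset Filter

namespace Helper75.DF

open Pool.Agent.Helper61.FR

lemma D13_preserving {μ : Measure ℝ} (h : Inv23 μ) (k : ℕ) :
    MeasurePreserving (fun x : ℝ => Int.fract (3 ^ k * x)) μ μ := by
  have := preserving_two_three h 0 k
  simpa using this

/-- the same cell: the fractional parts are close -/
lemma D13_close (L : ℕ) (u v : ℝ)
    (h : ⌊((2 ^ L : ℕ) : ℝ) * Int.fract u⌋₊ = ⌊((2 ^ L : ℕ) : ℝ) * Int.fract v⌋₊) :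
    ∃ z : ℤ, |u - v - z| ≤ 1 / 2 ^ L := by
  refine ⟨⌊u⌋ - ⌊v⌋, ?_⟩
  have hp : (0 : ℝ) < 2 ^ L := by positivity
  have hu := Int.fract_nonneg u
  have hv := Int.fract_nonneg v
  have e1 : u - v - ((⌊u⌋ - ⌊v⌋ : ℤ) : ℝ) = Int.fract u - Int.fract v := by
    have h1 := Int.floor_add_fract u
    have h2 := Int.floor_add_fract v
    push_cast
    linarith
  rw [e1]
  push_cast at h
  have h1 := Nat.floor_le (by positivity : 0 ≤ (2 : ℝ) ^ L * Int.fract u)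
  have h2 := Nat.lt_floor_add_one ((2 : ℝ) ^ L * Int.fract u)
  have h3 := Nat.floor_le (by positivity : 0 ≤ (2 : ℝ) ^ L * Int.fract v)
  have h4 := Nat.lt_floor_add_one ((2 : ℝ) ^ L * Int.fract v)
  rw [h] at h1 h2
  rw [abs_le, ← neg_div, div_le_iff₀ hp, le_div_iff₀ hp]
  constructor <;> nlinarith

theorem pigeonhole {μ : Measure ℝ} (h : Inv23 μ) (L B : ℕ) (G : Finset ℕ) (hB : 2 * G.card < B)
    (hG : ∑ a ∈ range (2 ^ L) \ G, pr μ (2 ^ L) a ≤ 1 / 20) :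
    9 / 10 ≤ μ.real {x | ∃ b b' : ℕ, b < b' ∧ b' < B ∧ ∃ z : ℤ,
      |3 ^ b * x - 3 ^ b' * x - z| ≤ 1 / 2 ^ L} := by
  classical
  have := h.prob
  have hB0 : (0 : ℝ) < B := by exact_mod_cast (by omega : 0 < B)
  -- the bad points
  set V : Set ℝ := {y | ⌊((2 ^ L : ℕ) : ℝ) * y⌋₊ ∈ range (2 ^ L) \ G} with hV
  have hVm : MeasurableSet V := by
    have e1 : V = ⋃ a ∈ range (2 ^ L) \ G, {x : ℝ | ⌊((2 ^ L : ℕ) : ℝ) * x⌋₊ = a} := by
      ext x; simp [hV]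
    rw [e1]
    exact Finset.measurableSet_biUnion _ fun a _ => measurableSet_floor_eq _ a
  have hVr : μ.real V ≤ 1 / 20 := by
    refine le_trans ?_ hG
    have e1 : V = ⋃ a ∈ range (2 ^ L) \ G, {x : ℝ | ⌊((2 ^ L : ℕ) : ℝ) * x⌋₊ = a} := by
      ext x; simp [hV]
    rw [e1]
    exact measureReal_biUnion_finset_le _ _
  set f : ℝ → ℝ := fun x => ∑ b ∈ range B,
    Set.indicator ((fun x : ℝ => Int.fract (3 ^ b * x)) ⁻¹' V) (fun _ => (1 : ℝ)) x with hf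
  have hpm : ∀ b : ℕ, MeasurableSet ((fun x : ℝ => Int.fract ((3 : ℝ) ^ b * x)) ⁻¹' V) := fun b =>
    (D13_preserving h b).measurable hVm
  have hint1 : ∀ b ∈ range B, Integrable (fun x => Set.indicator
      ((fun x : ℝ => Int.fract ((3 : ℝ) ^ b * x)) ⁻¹' V) (fun _ => (1 : ℝ)) x) μ := fun b _ =>
    (integrable_const (1 : ℝ)).indicator (hpm b)
  have hf0 : ∀ x, 0 ≤ f x := fun x => sum_nonneg fun b _ =>
    Set.indicator_nonneg (fun _ _ => zero_le_one) _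
  have hfi : Integrable f μ := integrable_finsetSum _ hint1
  have hfint : ∫ x, f x ∂μ ≤ B * (1 / 20) := by
    rw [hf]
    simp only
    rw [integral_finsetSum _ hint1]
    have h1 : ∀ b ∈ range B, ∫ x, Set.indicator ((fun x : ℝ => Int.fract ((3 : ℝ) ^ b * x)) ⁻¹' V)
        (fun _ => (1 : ℝ)) x ∂μ ≤ 1 / 20 := by
      intro b _
      rw [integral_indicator_const _ (hpm b), measureReal_def,
        (D13_preserving h b).measure_preimage hVm.nullMeasurableSet, ← measureReal_def]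
      simpa using hVr
    refine (sum_le_sum h1).trans ?_
    rw [sum_const, card_range, nsmul_eq_mul]
  -- Markov
  have hmk := mul_meas_ge_le_integral_of_nonneg (Eventually.of_forall hf0) hfi ((B : ℝ) / 2)
  have hbad : μ.real {x | (B : ℝ) / 2 ≤ f x} ≤ 1 / 10 := by
    have h1 : (B : ℝ) / 2 * μ.real {x | (B : ℝ) / 2 ≤ f x} ≤ B * (1 / 20) := hmk.trans hfint
    by_contra hcon
    push Not at hcon
    nlinarith
  have hfm : Measurable f := by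
    rw [hf]
    refine Finset.measurable_fun_sum _ fun b _ => measurable_const.indicator (hpm b)
  have hbm : MeasurableSet {x | (B : ℝ) / 2 ≤ f x} := measurableSet_le measurable_const hfm
  have hgood : 9 / 10 ≤ μ.real {x | (B : ℝ) / 2 ≤ f x}ᶜ := by
    rw [probReal_compl_eq_one_sub hbm]
    linarith
  refine hgood.trans (measureReal_mono ?_ (measure_ne_top μ _))
  intro x hx
  have hx1 : f x < B / 2 := not_le.mp hx
  -- the good times
  set cell : ℕ → ℕ := fun b => ⌊((2 ^ L : ℕ) : ℝ) * Int.fract ((3 : ℝ) ^ b * x)⌋₊ with hcell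
  have hcl : ∀ b, cell b < 2 ^ L := by
    intro b
    rw [hcell]
    simp only
    rw [Nat.floor_lt (by positivity)]
    have h1 := Int.fract_lt_one ((3 : ℝ) ^ b * x)
    have h2 : (0 : ℝ) < ((2 ^ L : ℕ) : ℝ) := by positivity
    nlinarith
  have hfx : f x = (((range B).filter fun b => cell b ∉ G).card : ℝ) := by
    rw [hf]
    simp only
    rw [Finset.card_filter]
    push_cast
    refine sum_congr rfl fun b _ => ?_
    by_cases hb : cell b ∈ G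
    · rw [if_neg (not_not.mpr hb), Set.indicator_of_notMem]
      intro h1
      have h2 : cell b ∈ range (2 ^ L) \ G := h1
      exact (mem_sdiff.mp h2).2 hb
    · rw [if_pos hb, Set.indicator_of_mem]
      show cell b ∈ range (2 ^ L) \ G
      exact mem_sdiff.mpr ⟨mem_range.mpr (hcl b), hb⟩
  have hcard : G.card < ((range B).filter fun b => cell b ∈ G).card := by
    have h1 := card_filter_add_card_filter_not (s := range B) (fun b => cell b ∈ G)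
    rw [card_range] at h1
    rw [hfx] at hx1
    have h2 : (2 * ((range B).filter fun b => cell b ∉ G).card : ℝ) < B := by linarith
    have h3 : 2 * ((range B).filter fun b => cell b ∉ G).card < B := by exact_mod_cast h2
    omega
  obtain ⟨b, hb, b', hb', hne, heq⟩ := exists_ne_map_eq_of_card_lt_of_maps_to hcard
    (f := cell) (fun b hb => (mem_filter.mp hb).2)
  rw [mem_filter, mem_range] at hb hb'
  rcases lt_or_gt_of_ne hne with hlt | hlt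
  · exact ⟨b, b', hlt, hb'.1, D13_close L _ _ heq⟩
  · exact ⟨b', b, hlt, hb.1, D13_close L _ _ heq.symm⟩

/-- near periodicity gives large energy -/
lemma D13_lower (m : ℕ) (c : ℂ) (hc : ‖c‖ ≤ 1) (N B L : ℕ) (hBN : 2 * B ≤ N)
    (hδ : N * (2 * Real.pi * m * (3 ^ (2 * N) / 2 ^ L)) ≤ (1 - ‖c‖) / 2) (x : ℝ) (b b' : ℕ)
    (h1 : b < b') (h2 : b' < B) (z : ℤ) (hz : |3 ^ b * x - 3 ^ b' * x - z| ≤ 1 / 2 ^ L) :
    (1 - ‖c‖) ^ 2 / 16 ≤ Rp c m N (b' - b) (3 ^ B * x) := by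
  refine Rp_lower c hc m N (b' - b) (3 ^ B * x) _ (by omega) (by omega) hδ ?_
  intro j hj
  obtain ⟨k, hk⟩ : ∃ k, k + b = j + B := ⟨j + B - b, by omega⟩
  have hk' : j + (b' - b) + B = k + b' := by omega
  set τ : ℝ := 3 ^ b * x - 3 ^ b' * x - z with hτ
  have e1 : (m : ℝ) * (3 ^ (j + (b' - b)) * (3 ^ B * x)) =
      (m * (3 ^ k * (3 ^ b * x)) - m * 3 ^ k * τ) + ((-(m * 3 ^ k * z) : ℤ) : ℝ) := by
    rw [← mul_assoc ((3 : ℝ) ^ (j + (b' - b))), ← pow_add, hk', pow_add, hτ]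
    push_cast
    ring
  have e2 : (m : ℝ) * (3 ^ j * (3 ^ B * x)) = m * (3 ^ k * (3 ^ b * x)) := by
    rw [← mul_assoc ((3 : ℝ) ^ j), ← pow_add, ← hk, pow_add]
    ring
  rw [e1, e2, e_add, e_int, mul_one]
  refine (norm_e_sub_le _ _).trans ?_
  have e3 : (m : ℝ) * (3 ^ k * (3 ^ b * x)) - m * 3 ^ k * τ - m * (3 ^ k * (3 ^ b * x)) =
      -(m * 3 ^ k * τ) := by ring
  rw [e3, abs_neg, abs_mul, abs_of_nonneg (by positivity : (0 : ℝ) ≤ m * 3 ^ k)]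
  have h3 : (3 : ℝ) ^ k ≤ 3 ^ (2 * N) := pow_le_pow_right₀ (by norm_num) (by omega)
  calc 2 * Real.pi * (m * 3 ^ k * |τ|) ≤ 2 * Real.pi * (m * 3 ^ (2 * N) * (1 / 2 ^ L)) := by
        gcongr
    _ = 2 * Real.pi * m * (3 ^ (2 * N) / 2 ^ L) := by ring

/-- Markov's inequality for the energy at one period -/
lemma D13_markov {μ : Measure ℝ} (h : Inv23 μ) (m N p B : ℕ) (hN : 1 ≤ N) (hp : 1 ≤ p) (D κ δ : ℝ)
    (hδ : 0 < δ) (hc : ∑ b ∈ range N, cb μ m b ≤ D * (N : ℝ) ^ (1 - κ)) :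
    μ.real {x | δ ≤ Rp (cf μ m) m N p (3 ^ B * x)} ≤ 2 * D / δ * (p * (N : ℝ) ^ (-κ)) := by
  have := h.prob
  have hN0 : (0 : ℝ) < N := by exact_mod_cast hN
  have hRm : Measurable (Rp (cf μ m) m N p) := (continuous_Rp (cf μ m) m N p).measurable
  have hAm : MeasurableSet {y | δ ≤ Rp (cf μ m) m N p y} := measurableSet_le measurable_const hRm
  have e1 : {x | δ ≤ Rp (cf μ m) m N p (3 ^ B * x)} =
      (fun x : ℝ => Int.fract (3 ^ B * x)) ⁻¹' {y | δ ≤ Rp (cf μ m) m N p y} := by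
    ext x
    show δ ≤ Rp (cf μ m) m N p (3 ^ B * x) ↔ δ ≤ Rp (cf μ m) m N p (Int.fract (3 ^ B * x))
    rw [Rp_fract]
  rw [e1, measureReal_def, (D13_preserving h B).measure_preimage hAm.nullMeasurableSet,
    ← measureReal_def]
  -- integrability on the unit interval
  have hint : Integrable (Rp (cf μ m) m N p) μ := by
    obtain ⟨C, hC⟩ : ∃ C : ℝ, ∀ y, ‖Rp (cf μ m) m N p y‖ ≤ C := by
      obtain ⟨C, hC⟩ := (isCompact_Icc (a := (0 : ℝ)) (b := 1)).exists_bound_of_continuousOn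
        (continuous_Rp (cf μ m) m N p).continuousOn
      refine ⟨C, fun y => ?_⟩
      rw [← Rp_fract]
      exact hC _ ⟨Int.fract_nonneg y, (Int.fract_lt_one y).le⟩
    exact Integrable.of_bound hRm.aestronglyMeasurable C (Eventually.of_forall hC)
  have h1 := mul_meas_ge_le_integral_of_nonneg
    (Eventually.of_forall (Rp_nonneg (cf μ m) m N p)) hint δ
  have h2 := integral_Rp h m N p hN hp
  have h3 : (p / N : ℝ) * (2 * ∑ b ∈ range N, cb μ m b) ≤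
      (p / N : ℝ) * (2 * (D * (N : ℝ) ^ (1 - κ))) := by gcongr
  have h4 : (p / N : ℝ) * (2 * (D * (N : ℝ) ^ (1 - κ))) = 2 * D * (p * (N : ℝ) ^ (-κ)) := by
    rw [Real.rpow_sub hN0, Real.rpow_one, Real.rpow_neg hN0.le]
    field_simp
  have h5 : δ * μ.real {y | δ ≤ Rp (cf μ m) m N p y} ≤ 2 * D * (p * (N : ℝ) ^ (-κ)) := by
    rw [← h4]
    exact h1.trans (h2.trans h3)
  rw [div_mul_eq_mul_div, le_div_iff₀ hδ, mul_comm]
  exact h5

theorem false_of_few {μ : Measure ℝ} (h : Inv23 μ) (m : ℕ) (hφ : ‖cf μ m‖ < 1) (D κ : ℝ)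
    (hκ : 0 < κ)
    (hc : ∀ N : ℕ, 1 ≤ N → ∑ b ∈ range N, cb μ m b ≤ D * (N : ℝ) ^ (1 - κ)) (θ : ℕ)
    (hG : ∀ Λ : ℕ, 1 ≤ Λ → ∃ Q₀ : ℕ, ∀ Q : ℕ, Q₀ ≤ Q → ∃ G : Finset ℕ,
      G ⊆ range (2 ^ (2 ^ (Λ * Q))) ∧ G.card ≤ 2 ^ (θ * Q) ∧
      ∑ a ∈ range (2 ^ (2 ^ (Λ * Q))) \ G, pr μ (2 ^ (2 ^ (Λ * Q))) a ≤ 1 / 20) : False := by
  have := h.prob
  set δ₀ : ℝ := (1 - ‖cf μ m‖) ^ 2 / 16 with hδ₀d
  have hδ₀ : 0 < δ₀ := by
    have : 0 < 1 - ‖cf μ m‖ := by linarith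
    positivity
  have hD : 0 ≤ D := by
    have h1 := hc 1 le_rfl
    simp only [range_one, sum_singleton, Nat.cast_one, Real.one_rpow, mul_one] at h1
    exact (norm_nonneg _).trans h1
  obtain ⟨Λ₀, hΛ₀⟩ := exists_nat_gt ((2 * θ + 1) / κ)
  obtain ⟨Λ, hΛ⟩ : ∃ Λ : ℕ, Λ = Λ₀ + θ + 2 := ⟨_, rfl⟩
  have hΛκ : (2 * θ + 1 : ℝ) ≤ Λ * κ := by
    rw [div_lt_iff₀ hκ] at hΛ₀
    have h1 : (Λ₀ : ℝ) ≤ Λ := by exact_mod_cast (by omega : Λ₀ ≤ Λ)
    nlinarith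
  obtain ⟨Q₀, hQ₀⟩ := hG Λ (by omega)
  set Cst : ℝ := 2 * D / δ₀ * (9 * 2 ^ (2 * κ)) with hCst
  -- the conditions on Q
  have hNt : Tendsto (fun Q : ℕ => 2 ^ (Λ * Q - 2)) atTop atTop := by
    refine (tendsto_pow_atTop_atTop_of_one_lt (r := 2) (by norm_num)).comp ?_
    refine tendsto_atTop_mono (f := fun Q : ℕ => Q - 2) (fun Q => ?_) (tendsto_sub_atTop_nat 2)
    show Q - 2 ≤ Λ * Q - 2
    have : Q ≤ Λ * Q := Nat.le_mul_of_pos_left Q (by omega)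
    omega
  have hlim1 : Tendsto (fun N : ℕ => 2 * Real.pi * m * (N * (9 / 16 : ℝ) ^ N)) atTop (nhds 0) := by
    have := (tendsto_self_mul_const_pow_of_abs_lt_one (r := (9 / 16 : ℝ))
      (by rw [abs_of_pos] <;> norm_num)).const_mul (2 * Real.pi * m)
    simpa using this
  have hev1 := (hlim1.comp hNt).eventually_lt_const (u := (1 - ‖cf μ m‖) / 2) (by linarith)
  have hlim2 : Tendsto (fun Q : ℕ => Cst * (1 / 2 : ℝ) ^ Q) atTop (nhds 0) := by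
    have := (tendsto_pow_atTop_nhds_zero_of_lt_one (r := (1 / 2 : ℝ)) (by norm_num)
      (by norm_num)).const_mul Cst
    simpa using this
  have hev2 := hlim2.eventually_lt_const (u := (9 / 10 : ℝ)) (by norm_num)
  obtain ⟨Q, hQ1, hQ2, hQ3, hQ4⟩ := (hev1.and (hev2.and
    ((eventually_ge_atTop Q₀).and (eventually_ge_atTop 3)))).exists
  obtain ⟨G, hGs, hGc, hGm⟩ := hQ₀ Q hQ3
  obtain ⟨N, hN⟩ : ∃ N : ℕ, N = 2 ^ (Λ * Q - 2) := ⟨_, rfl⟩
  obtain ⟨L, hL⟩ : ∃ L : ℕ, L = 2 ^ (Λ * Q) := ⟨_, rfl⟩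
  obtain ⟨B, hB⟩ : ∃ B : ℕ, B = 2 * 2 ^ (θ * Q) + 1 := ⟨_, rfl⟩
  have hΛQ : θ * Q + 4 ≤ Λ * Q - 2 := by
    have h1 : Λ * Q = Λ₀ * Q + θ * Q + 2 * Q := by rw [hΛ]; ring
    omega
  have hLN : L = 4 * N := by
    rw [hL, hN, show (4 : ℕ) = 2 ^ 2 by norm_num, ← pow_add]
    congr 1
    omega
  have hN1 : 1 ≤ N := by rw [hN]; exact Nat.one_le_two_pow
  have hBN : 2 * B ≤ N := by
    have h1 : 2 ^ (θ * Q + 4) ≤ N := by
      rw [hN]; exact Nat.pow_le_pow_right (by norm_num) hΛQ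
    have h2 : 2 ^ (θ * Q + 4) = 16 * 2 ^ (θ * Q) := by ring
    have h3 : 1 ≤ 2 ^ (θ * Q) := Nat.one_le_two_pow
    omega
  have hN0 : (0 : ℝ) < N := by exact_mod_cast hN1
  rw [← hL] at hGm
  have hpig := pigeonhole h L B G (by omega) hGm
  -- near periodicity
  have hδ : N * (2 * Real.pi * m * (3 ^ (2 * N) / 2 ^ L)) ≤ (1 - ‖cf μ m‖) / 2 := by
    have h1 : (3 : ℝ) ^ (2 * N) / 2 ^ L = (9 / 16) ^ N := by
      rw [hLN, pow_mul, pow_mul, div_pow]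
      norm_num
    rw [h1]
    have h2 : 2 * Real.pi * m * (N * (9 / 16 : ℝ) ^ N) < (1 - ‖cf μ m‖) / 2 := by
      rw [hN]
      simpa using hQ1
    linarith
  have hsub : {x : ℝ | ∃ b b' : ℕ, b < b' ∧ b' < B ∧ ∃ z : ℤ,
      |3 ^ b * x - 3 ^ b' * x - z| ≤ 1 / 2 ^ L} ⊆
      ⋃ p ∈ Icc 1 B, {x | δ₀ ≤ Rp (cf μ m) m N p (3 ^ B * x)} := by
    rintro x ⟨b, b', h1, h2, z, hz⟩
    rw [Set.mem_iUnion₂]
    exact ⟨b' - b, mem_Icc.mpr ⟨by omega, by omega⟩,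
      D13_lower m (cf μ m) hφ.le N B L hBN hδ x b b' h1 h2 z hz⟩
  have hsum : μ.real {x : ℝ | ∃ b b' : ℕ, b < b' ∧ b' < B ∧ ∃ z : ℤ,
      |3 ^ b * x - 3 ^ b' * x - z| ≤ 1 / 2 ^ L} ≤ 2 * D / δ₀ * (B ^ 2 * (N : ℝ) ^ (-κ)) := by
    refine (measureReal_mono hsub (measure_ne_top μ _)).trans
      ((measureReal_biUnion_finset_le _ _).trans ?_)
    have h1 : ∀ p ∈ Icc 1 B, μ.real {x | δ₀ ≤ Rp (cf μ m) m N p (3 ^ B * x)} ≤
        2 * D / δ₀ * (B * (N : ℝ) ^ (-κ)) := by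
      intro p hp
      rw [mem_Icc] at hp
      refine (D13_markov h m N p B hN1 hp.1 D κ δ₀ hδ₀ (hc N hN1)).trans ?_
      have h2 : (p : ℝ) ≤ B := by exact_mod_cast hp.2
      gcongr
    refine (sum_le_sum h1).trans ?_
    rw [sum_const, Nat.card_Icc, nsmul_eq_mul]
    have h3 : ((B + 1 - 1 : ℕ) : ℝ) = B := by simp
    rw [h3]
    refine le_of_eq ?_
    ring
  -- the numbers
  have hBr : (B : ℝ) ^ 2 ≤ 9 * (2 : ℝ) ^ ((2 * θ * Q : ℕ) : ℝ) := by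
    have h1 : (B : ℝ) ≤ 3 * 2 ^ (θ * Q) := by
      have h2 : B ≤ 3 * 2 ^ (θ * Q) := by
        have h3 : 1 ≤ 2 ^ (θ * Q) := Nat.one_le_two_pow
        omega
      exact_mod_cast h2
    rw [Real.rpow_natCast]
    calc (B : ℝ) ^ 2 ≤ (3 * 2 ^ (θ * Q)) ^ 2 := by gcongr
      _ = 9 * 2 ^ (2 * θ * Q) := by
          have h4 : (2 : ℝ) ^ (2 * θ * Q) = (2 ^ (θ * Q)) ^ 2 := by
            rw [← pow_mul]
            congr 1
            ring
          rw [h4]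
          ring
  have hNr : (N : ℝ) ^ (-κ) = (2 : ℝ) ^ (-(κ * ((Λ * Q - 2 : ℕ) : ℝ))) := by
    rw [hN]
    push_cast
    rw [← Real.rpow_natCast, ← Real.rpow_mul (by norm_num)]
    congr 1
    ring
  have hfin : B ^ 2 * (N : ℝ) ^ (-κ) ≤ 9 * 2 ^ (2 * κ) * (1 / 2 : ℝ) ^ Q := by
    rw [hNr]
    calc (B : ℝ) ^ 2 * (2 : ℝ) ^ (-(κ * ((Λ * Q - 2 : ℕ) : ℝ)))
        ≤ (9 * (2 : ℝ) ^ ((2 * θ * Q : ℕ) : ℝ)) * (2 : ℝ) ^ (-(κ * ((Λ * Q - 2 : ℕ) : ℝ))) := by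
          gcongr
      _ = 9 * (2 : ℝ) ^ (((2 * θ * Q : ℕ) : ℝ) - κ * ((Λ * Q - 2 : ℕ) : ℝ)) := by
          rw [mul_assoc, ← Real.rpow_add (by norm_num)]
          rfl
      _ ≤ 9 * (2 : ℝ) ^ (2 * κ - Q) := by
          refine mul_le_mul_of_nonneg_left
            (Real.rpow_le_rpow_of_exponent_le (by norm_num) ?_) (by norm_num)
          rw [Nat.cast_sub (by omega)]
          push_cast
          have h1 : (0 : ℝ) ≤ Q := Nat.cast_nonneg Q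
          nlinarith
      _ = 9 * 2 ^ (2 * κ) * (1 / 2 : ℝ) ^ Q := by
          rw [Real.rpow_sub (by norm_num), Real.rpow_natCast, one_div, inv_pow]
          ring
  have hlast : 2 * D / δ₀ * (B ^ 2 * (N : ℝ) ^ (-κ)) ≤ Cst * (1 / 2 : ℝ) ^ Q := by
    rw [hCst]
    calc 2 * D / δ₀ * (B ^ 2 * (N : ℝ) ^ (-κ))
        ≤ 2 * D / δ₀ * (9 * 2 ^ (2 * κ) * (1 / 2 : ℝ) ^ Q) := by gcongr
      _ = _ := by ring
  linarith

end Helper75.DF
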