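import Mathlib
import Pool.Agent.Helper75.DF.Defs
import Pool.Agent.Helper61.FR.St.P10
import Pool.Agent.Helper61.FR.St.P12

/-!
# DF-D14: summable correlations give diffusive deviations; means of characters

* `variance_cb`: `variance_le_sum` with `M = 1` (`cf_neg` for the second term).
* `dev_le`: Chebyshev.
* `norm_cf_lt_one`: if `‖∫ e (m y)‖ = 1` then `e (m y)` is almost everywhere equal to the constant
  `c = ∫ e (m y)` (`∫ ‖e (m y) - c‖ ^ 2 = 1 - ‖c‖ ^ 2 = 0`), which holds only for countably many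
  `y` (`e (m y) = e (m y')` iff `m (y - y') ∈ ℤ`), and these have measure `0`.
-/

set_option autoImplicit false

open MeasureTheory Finset

namespace Helper75.DF

open Pool.Agent.Helper61.FR

theorem variance_cb {μ : Measure ℝ} (h : Inv23 μ) (N m : ℕ) (hN : 1 ≤ N) :
    ∫ x, ‖avg 1 N (fun y => e (m * y)) x - ∫ y, e (m * y) ∂μ‖ ^ 2 ∂μ ≤
      8 / N * ∑ b ∈ range N, cb μ m b := by
  refine (variance_le_sum h 1 N m le_rfl hN).trans (le_of_eq ?_)
  have h1 : ∀ b : ℕ, ‖cf μ ((m : ℤ) * (2 ^ 0 * 3 ^ b - 1)) - ((‖cf μ m‖ ^ 2 : ℝ) : ℂ)‖ +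
      ‖cf μ ((m : ℤ) * (2 ^ 0 - 3 ^ b)) - ((‖cf μ m‖ ^ 2 : ℝ) : ℂ)‖ = 2 * cb μ m b := by
    intro b
    have h2 : (m : ℤ) * (2 ^ 0 * 3 ^ b - 1) = m * (3 ^ b - 1) := by ring
    have h3 : (m : ℤ) * (2 ^ 0 - 3 ^ b) = -(m * (3 ^ b - 1)) := by ring
    have h4 := cd_neg μ m (m * (3 ^ b - 1))
    unfold cd at h4
    rw [h2, h3, h4]
    unfold cb
    ring
  rw [Finset.sum_range_one, Finset.sum_congr rfl fun b _ => h1 b, ← Finset.mul_sum]
  push_cast
  ring

theorem dev_le {μ : Measure ℝ} (h : Inv23 μ) (N m : ℕ) (hN : 1 ≤ N) (η : ℝ) (hη : 0 < η) :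
    μ.real (dev μ 1 N m η) ≤ 8 * (∑ b ∈ range N, cb μ m b) / η ^ 2 / N := by
  have := h.prob
  set F : ℝ → ℝ := fun x => ‖avg 1 N (fun y => e (m * y)) x - ∫ y, e (m * y) ∂μ‖ ^ 2 with hF
  have hle : ∀ x, ‖avg 1 N (fun y => e (m * y)) x‖ ≤ 1 := by
    intro x
    have hN0 : (0 : ℝ) < N := by exact_mod_cast hN
    unfold avg
    rw [norm_div, norm_mul, Complex.norm_natCast, Complex.norm_natCast,
      div_le_one (by simpa using hN0)]
    refine (norm_sum_le _ _).trans ?_
    rw [Finset.sum_range_one]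
    refine (norm_sum_le _ _).trans ?_
    simp only [norm_e, Finset.sum_const, Finset.card_range]
    simp
  have hc : ‖∫ y, e (m * y) ∂μ‖ ≤ 1 := by
    refine (norm_integral_le_integral_norm _).trans (le_of_eq ?_)
    simp [norm_e]
  have hmeas : Measurable F :=
    ((measurable_avg 1 N m).sub_const _).norm.pow_const 2
  have hint : Integrable F μ := by
    refine Integrable.of_bound hmeas.aestronglyMeasurable 4
      (Filter.Eventually.of_forall fun x => ?_)
    have h1 : ‖avg 1 N (fun y => e (m * y)) x - ∫ y, e (m * y) ∂μ‖ ≤ 2 := by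
      refine (norm_sub_le _ _).trans ?_
      linarith [hle x]
    have h2 : 0 ≤ ‖avg 1 N (fun y => e (m * y)) x - ∫ y, e (m * y) ∂μ‖ := norm_nonneg _
    rw [hF, Real.norm_eq_abs, abs_of_nonneg (by positivity)]
    nlinarith
  have hM := mul_meas_ge_le_integral_of_nonneg (μ := μ) (f := F)
    (Filter.Eventually.of_forall fun x => by simp only [hF, Pi.zero_apply]; positivity)
    hint (η ^ 2)
  have hsub : μ.real (dev μ 1 N m η) ≤ μ.real {x | η ^ 2 ≤ F x} := by
    refine measureReal_mono ?_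
    intro x hx
    have hx' : η < ‖avg 1 N (fun y => e (m * y)) x - ∫ y, e (m * y) ∂μ‖ := hx
    show η ^ 2 ≤ ‖avg 1 N (fun y => e (m * y)) x - ∫ y, e (m * y) ∂μ‖ ^ 2
    exact pow_le_pow_left₀ hη.le hx'.le 2
  have hV := variance_cb h N m hN
  have hη2 : (0 : ℝ) < η ^ 2 := by positivity
  have h5 : η ^ 2 * μ.real (dev μ 1 N m η) ≤ 8 / N * ∑ b ∈ range N, cb μ m b :=
    (mul_le_mul_of_nonneg_left hsub hη2.le).trans (hM.trans hV)
  have hN0 : (0 : ℝ) < N := by exact_mod_cast hN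
  rw [div_div, le_div_iff₀ (by positivity)]
  have h6 := mul_le_mul_of_nonneg_right h5 hN0.le
  have h7 : 8 / (N : ℝ) * (∑ b ∈ range N, cb μ m b) * N = 8 * ∑ b ∈ range N, cb μ m b := by
    field_simp
  rw [h7] at h6
  linarith

theorem norm_cf_lt_one {μ : Measure ℝ} (h : Inv23 μ) (h0 : ∀ x, μ {x} = 0) (m : ℕ)
    (hm : 1 ≤ m) : ‖cf μ m‖ < 1 := by
  have := h.prob
  have hm0 : (m : ℝ) ≠ 0 := by
    have : (0 : ℝ) < m := by exact_mod_cast hm
    exact this.ne'
  rcases ae_eq_const_or_norm_integral_lt_of_norm_le_const (μ := μ) (C := 1)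
    (f := fun y : ℝ => e (((m : ℤ) : ℝ) * y))
    (Filter.Eventually.of_forall fun y => (norm_e _).le) with h1 | h1
  · exfalso
    set c : ℂ := ⨍ y, e (((m : ℤ) : ℝ) * y) ∂μ with hc
    have hcount : {y : ℝ | e (((m : ℤ) : ℝ) * y) = c}.Countable := by
      rcases Set.eq_empty_or_nonempty {y : ℝ | e (((m : ℤ) : ℝ) * y) = c} with h2 | ⟨y₀, hy₀⟩
      · rw [h2]; exact Set.countable_empty
      · refine (Set.countable_range fun z : ℤ => y₀ + z / m).mono ?_
        intro y hy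
        have hy1 : e (((m : ℤ) : ℝ) * y) = c := hy
        have hy2 : e (((m : ℤ) : ℝ) * y₀) = c := hy₀
        have h3 : Complex.exp (2 * Real.pi * (((m : ℤ) : ℝ) * y : ℝ) * Complex.I) =
            Complex.exp (2 * Real.pi * (((m : ℤ) : ℝ) * y₀ : ℝ) * Complex.I) := hy1.trans hy2.symm
        rw [Complex.exp_eq_exp_iff_exists_int] at h3
        obtain ⟨z, hz⟩ := h3
        refine ⟨z, ?_⟩
        have hpi : (2 * Real.pi * Complex.I : ℂ) ≠ 0 := Complex.two_pi_I_ne_zero
        have h4 : ((((m : ℤ) : ℝ) * y : ℝ) : ℂ) = ((((m : ℤ) : ℝ) * y₀ : ℝ) : ℂ) + z := by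
          apply mul_left_cancel₀ hpi
          linear_combination hz
        have h5 : ((m : ℤ) : ℝ) * y = ((m : ℤ) : ℝ) * y₀ + z := by exact_mod_cast h4
        have h6 : (m : ℝ) * y = m * y₀ + z := by simpa using h5
        show y₀ + (z : ℝ) / m = y
        field_simp
        linarith
    have hz : μ {y : ℝ | e (((m : ℤ) : ℝ) * y) = c} = 0 := by
      rw [← Set.biUnion_of_singleton {y : ℝ | e (((m : ℤ) : ℝ) * y) = c}]
      rw [measure_biUnion_null_iff hcount]
      intro y _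
      exact h0 y
    have hone : μ {y : ℝ | e (((m : ℤ) : ℝ) * y) = c} = μ Set.univ := by
      refine measure_congr ?_
      rw [Filter.eventuallyEq_univ]
      filter_upwards [h1] with y hy
      exact hy
    rw [hz, measure_univ] at hone
    exact zero_ne_one hone
  · have h2 : μ.real Set.univ * 1 = 1 := by simp
    rw [h2] at h1
    exact h1

end Helper75.DF
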