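import Mathlib
import Pool.Agent.Helper75.DF.Defs
import Pool.Agent.Helper88.SC.Weyl

/-!
# DF-D3: exponential sums over powers of 3 with denominators up to `2 ^ (C q)`

This is `Pool.Agent.Helper88.SC.weyl` (van der Corput's inequality, iterated).
-/

set_option autoImplicit false

open Finset

namespace Helper75.DF

open Pool.Agent.Helper61.FR

theorem weyl (C : ℕ) (η : ℝ) (hη : 0 < η) :
    ∃ q₀ : ℕ, ∀ q, q₀ ≤ q → ∀ k, 4 ≤ k → k ≤ C * q → WB q k η := by
  obtain ⟨q₁, hq₁⟩ := Pool.Agent.Helper88.SC.weyl (2 * C) η hη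
  refine ⟨q₁ + C, fun q hq k hk1 hk2 d hd => ?_⟩
  have h1 : k ≤ q + 2 + 2 * C * (q / 2) := by
    have h2 : q ≤ 2 * (q / 2) + 1 := by omega
    have h3 : C * q ≤ C * (2 * (q / 2) + 1) := Nat.mul_le_mul_left _ h2
    have h4 : C * (2 * (q / 2) + 1) = 2 * C * (q / 2) + C := by ring
    omega
  have h5 := hq₁ q (by omega) k hk1 h1 d hd
  unfold Pool.Agent.Helper88.SC.W at h5
  refine le_trans (le_of_eq ?_) h5
  congr 1
  refine sum_congr rfl fun j _ => ?_
  rw [mul_comm]

end Helper75.DF
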