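import Mathlib
import Pool.Agent.Helper75.DF.Defs
import Pool.Agent.Helper75.DF.St.D3
import Pool.Agent.Helper75.DF.St.D4

/-!
# DF-D5: two points whose difference is close to a dyadic rational are not both typical

`W` is the window function, e.g. `W q = C * q` by `weyl`; the hypothesis `Window W` says that the
exponential sums with denominators `2 ^ k`, `4 ≤ k ≤ W q`, are small.

Proof.  Take `T`, `η` from `criterion`, `n₀ ≥ 4 + v` for all the `2`-adic valuations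
`v = padicValNat 2 h`, `h ∈ T` (e.g. `n₀ = 4 + ∑ h ∈ T, h`), and `q₀` from `hW η`.  Put
`z j = 3 ^ j d / 2 ^ k`.  For `h ∈ T`, `h = 2 ^ v h'` with `h'` odd, `e (h z j) = e (h' d 3 ^ j / 2 ^ (k - v))`
and `4 ≤ k - v ≤ W q`, so the hypothesis of `criterion` holds with `N = 2 ^ q`.  On the other hand
`x` and `x' = x + d / 2 ^ k + τ` are typical, so for at least `(3 / 4) 2 ^ q` of the `j < 2 ^ q` both
`3 ^ j x` and `3 ^ j x'` are in `nbhd r U`: there are `u, u' ∈ U` and integers with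
`|3 ^ j x - z₁ - (u + 1/2) / 2 ^ r| ≤ (3 / 4) / 2 ^ r` and the same for `x'`, `u'`, so
`|3 ^ j d / 2 ^ k + 3 ^ j τ - z₂ - (u' - u) / 2 ^ r| ≤ (3 / 2) / 2 ^ r`, and `|3 ^ j τ| ≤ (1 / 2) / 2 ^ r`.
So `hits r U (2 ^ q) z ≥ (3 / 4) 2 ^ q`: contradiction.
-/

set_option autoImplicit false

open Finset

namespace Helper75.DF

open Pool.Agent.Helper61.FR

theorem window_mul (C : ℕ) : Window fun q => C * q :=
  fun η hη => weyl C η hη

open Classical in
theorem cnt_one (N : ℕ) (V : Set ℝ) (x : ℝ) :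
    cnt 1 N V x = ((range N).filter fun j => (3 : ℝ) ^ j * x ∈ V).card := by
  unfold cnt
  refine Finset.card_nbij' (fun t => t.2) (fun j => (0, j)) ?_ ?_ ?_ ?_
  · rintro ⟨i, j⟩ hij
    simp only [Finset.coe_filter, Set.mem_ofPred_eq, Finset.mem_product, Finset.mem_range,
      Nat.lt_one_iff] at hij ⊢
    obtain ⟨⟨rfl, h1⟩, h2⟩ := hij
    simp only [pow_zero, one_mul] at h2
    exact ⟨h1, h2⟩
  · intro j hj
    simp only [Finset.coe_filter, Set.mem_ofPred_eq, Finset.mem_product, Finset.mem_range,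
      Nat.lt_one_iff] at hj ⊢
    refine ⟨⟨trivial, hj.1⟩, ?_⟩
    simpa using hj.2
  · rintro ⟨i, j⟩ hij
    simp only [Finset.coe_filter, Set.mem_ofPred_eq, Finset.mem_product, Finset.mem_range,
      Nat.lt_one_iff] at hij
    obtain ⟨⟨rfl, h1⟩, h2⟩ := hij
    rfl
  · intro j hj
    rfl

theorem not_both (r : ℕ) (U : Finset ℕ) (hU : 48 * U.card ^ 2 < 2 ^ r) :
    ∃ n₀ : ℕ, ∀ W : ℕ → ℕ, Window W → ∃ q₀ : ℕ, ∀ q, q₀ ≤ q → ∀ k, n₀ ≤ k → k ≤ W q →
      ∀ d : ℤ, Odd d → ∀ τ x : ℝ, |τ| * 3 ^ (2 ^ q) * 2 ^ (r + 1) ≤ 1 → x ∈ Typ r U q →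
        x + d / 2 ^ k + τ ∉ Typ r U q := by
  classical
  obtain ⟨T, η, hη, hT, hcrit⟩ := criterion r U hU
  refine ⟨4 + ∑ h ∈ T, h, fun W hW => ?_⟩
  obtain ⟨q₀, hq₀⟩ := hW η hη
  refine ⟨q₀, fun q hq k hk1 hk2 d hd τ x hτ hx hx' => ?_⟩
  set z : ℕ → ℝ := fun j => d * 3 ^ j / 2 ^ k with hz
  have h1 : 2 * hits r U (2 ^ q) z < 2 ^ q := by
    refine hcrit (2 ^ q) z Nat.one_le_two_pow fun h hh => ?_
    have hh1 := hT h hh
    obtain ⟨v, h', hodd, hv⟩ := Nat.exists_eq_two_pow_mul_odd (n := h) (by omega)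
    have hvh : v < h := by
      have h2 : v < 2 ^ v := Nat.lt_two_pow_self
      have h3 : 1 ≤ h' := hodd.pos
      have h4 : 2 ^ v * 1 ≤ 2 ^ v * h' := Nat.mul_le_mul_left _ h3
      omega
    have hsum : h ≤ ∑ h ∈ T, h := Finset.single_le_sum (f := fun h => h) (fun _ _ => Nat.zero_le _) hh
    have h5 := hq₀ q hq (k - v) (by omega) (by omega) (h' * d) (by
      have : Odd (h' : ℤ) := by exact_mod_cast hodd
      exact this.mul hd)
    have h6 : ∀ j ∈ range (2 ^ q), e ((h : ℝ) * z j) = e (((h' * d : ℤ) : ℝ) * 3 ^ j / 2 ^ (k - v)) := by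
      intro j _
      congr 1
      have h7 : (2 : ℝ) ^ k = 2 ^ v * 2 ^ (k - v) := by
        rw [← pow_add]; congr 1; omega
      have h8 : (h : ℝ) = 2 ^ v * h' := by rw [hv]; push_cast; ring
      rw [hz]
      simp only
      rw [h7, h8]
      push_cast
      field_simp
    rw [Finset.sum_congr rfl h6]
    push_cast at h5 ⊢
    exact h5
  -- both typical
  set A := (range (2 ^ q)).filter fun j => (3 : ℝ) ^ j * x ∈ nbhd r U with hA
  set A' := (range (2 ^ q)).filter fun j => (3 : ℝ) ^ j * (x + d / 2 ^ k + τ) ∈ nbhd r U with hA'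
  have hcA : 7 * 2 ^ q ≤ 8 * A.card := by
    have h2 : 7 * 2 ^ q ≤ 8 * cnt 1 (2 ^ q) (nbhd r U) x := hx
    rwa [cnt_one] at h2
  have hcA' : 7 * 2 ^ q ≤ 8 * A'.card := by
    have h2 : 7 * 2 ^ q ≤ 8 * cnt 1 (2 ^ q) (nbhd r U) (x + d / 2 ^ k + τ) := hx'
    rwa [cnt_one] at h2
  have h3 : (A ∪ A').card + (A ∩ A').card = A.card + A'.card := Finset.card_union_add_card_inter A A'
  have h4 : (A ∪ A').card ≤ 2 ^ q := by
    have : A ∪ A' ⊆ range (2 ^ q) :=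
      Finset.union_subset (Finset.filter_subset _ _) (Finset.filter_subset _ _)
    have h5 := Finset.card_le_card this
    rwa [Finset.card_range] at h5
  have h5 : (A ∩ A').card ≤ hits r U (2 ^ q) z := by
    unfold hits
    refine Finset.card_le_card fun j hj => ?_
    simp only [hA, hA', Finset.mem_inter, Finset.mem_filter, Finset.mem_range] at hj ⊢
    obtain ⟨⟨hjq, ⟨u, hu, w, hw⟩⟩, ⟨_, ⟨u', hu', w', hw'⟩⟩⟩ := hj
    refine ⟨hjq, u, hu, u', hu', w' - w, ?_⟩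
    have h2r : (0 : ℝ) < 2 ^ r := by positivity
    -- the error term
    have hτ' : |(3 : ℝ) ^ j * τ| ≤ 1 / 2 / 2 ^ r := by
      rw [abs_mul, abs_of_pos (by positivity : (0 : ℝ) < 3 ^ j), div_div, le_div_iff₀ (by positivity)]
      refine le_trans ?_ hτ
      have h8 : (3 : ℝ) ^ j ≤ 3 ^ (2 ^ q) := pow_le_pow_right₀ (by norm_num) hjq.le
      have h9 : (0 : ℝ) ≤ |τ| := abs_nonneg τ
      calc (3 : ℝ) ^ j * |τ| * (2 * 2 ^ r) ≤ 3 ^ (2 ^ q) * |τ| * (2 * 2 ^ r) := by gcongr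
        _ = |τ| * 3 ^ (2 ^ q) * 2 ^ (r + 1) := by ring
    have hid : z j - ((w' - w : ℤ) : ℝ) - ((u' : ℝ) - u) / 2 ^ r =
        ((3 : ℝ) ^ j * (x + d / 2 ^ k + τ) - w' - (u' + 1 / 2) / 2 ^ r) -
        ((3 : ℝ) ^ j * x - w - (u + 1 / 2) / 2 ^ r) - 3 ^ j * τ := by
      rw [hz]
      push_cast
      ring
    rw [hid]
    have h10 : (2 : ℝ) / 2 ^ r = 3 / 4 / 2 ^ r + 3 / 4 / 2 ^ r + 1 / 2 / 2 ^ r := by ring
    rw [h10]
    rw [abs_le] at hw hw' hτ' ⊢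
    constructor <;> linarith [hw.1, hw.2, hw'.1, hw'.2, hτ'.1, hτ'.2]
  omega

end Helper75.DF
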