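import Mathlib
import Pool.Agent.Helper75.DF.Defs
import Pool.Agent.Helper61.FR.St.P1

/-!
# DF-D6: the image of the typical set meets at most one cell of each fibre

Proof.  `I` is the set of the `c < 2 ^ K * 2 ^ n` such that there is `y ∈ G`, `0 ≤ y < 1`, with
`⌊2 ^ (K + n) * fract (2 ^ n₀ y)⌋₊ = c`.  Suppose `c ≠ c'` are in `I`, congruent modulo `2 ^ K`, with
witnesses `y`, `y'`; put `x = fract (2 ^ n₀ y)`, `x' = fract (2 ^ n₀ y')`.  Then
`x' - x = (c' - c) / 2 ^ (K + n) + θ`, `|θ| ≤ 1 / 2 ^ (K + n)`, `c' - c = 2 ^ K j`, `0 < |j| < 2 ^ n`, so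
`2 ^ n₀ (y' - y) = j / 2 ^ n + z + θ` with an integer `z`, i.e.
`y' = y + (j + 2 ^ n z) / 2 ^ (n + n₀) + θ / 2 ^ n₀`.  The integer `j + 2 ^ n z` is `2 ^ v d` with `d` odd
and `v < n` (the `2`-adic valuation of `j`), so `y' = y + d / 2 ^ k + τ` with
`k = n + n₀ - v`, `τ = θ / 2 ^ n₀`: contradiction with `hdet`.
Mass: by `preserving_two_pow` the number `pr μ (2 ^ K * 2 ^ n) c` is the measure of
`{y | ⌊2 ^ (K + n) * fract (2 ^ n₀ y)⌋₊ = c}`; for `c ∉ I` this set is (up to the null set where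
`y ∉ [0, 1)`) contained in `Gᶜ`; these sets are disjoint.
-/

set_option autoImplicit false

open MeasureTheory Finset

namespace Helper75.DF

open Pool.Agent.Helper61.FR

theorem hit_structure {μ : Measure ℝ} (h : Inv23 μ) (n₀ n K : ℕ) (G : Set ℝ)
    (hG : MeasurableSet G)
    (hdet : ∀ y ∈ G, ∀ k, n₀ < k → k ≤ n₀ + n → ∀ d : ℤ, Odd d → ∀ τ : ℝ,
      |τ| * 2 ^ (K + n + n₀) ≤ 1 → y + d / 2 ^ k + τ ∉ G) :
    ∃ I : Finset ℕ, (∀ c ∈ I, ∀ c' ∈ I, c % 2 ^ K = c' % 2 ^ K → c = c') ∧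
      ∑ c ∈ range (2 ^ K * 2 ^ n) \ I, pr μ (2 ^ K * 2 ^ n) c ≤ μ.real Gᶜ := by
  classical
  have := h.prob
  set D : ℕ := 2 ^ K * 2 ^ n with hD
  have hDr : (D : ℝ) = 2 ^ K * 2 ^ n := by rw [hD]; push_cast; ring
  have hDpos : (0 : ℝ) < D := by rw [hDr]; positivity
  refine ⟨(range D).filter (fun c => ∃ y ∈ G, ⌊(D : ℝ) * Int.fract (2 ^ n₀ * y)⌋₊ = c), ?_, ?_⟩
  · intro c hc c' hc' hcc
    rw [Finset.mem_filter, Finset.mem_range] at hc hc'
    obtain ⟨hcD, y, hy, hyc⟩ := hc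
    obtain ⟨hcD', y', hy', hyc'⟩ := hc'
    by_contra hne
    have hx0 := Int.fract_nonneg (2 ^ n₀ * y)
    have hx0' := Int.fract_nonneg (2 ^ n₀ * y')
    have h1 : (c : ℝ) ≤ D * Int.fract (2 ^ n₀ * y) := by
      rw [← hyc]; exact Nat.floor_le (by positivity)
    have h2 : (D : ℝ) * Int.fract (2 ^ n₀ * y) < c + 1 := by
      rw [← hyc]; exact Nat.lt_floor_add_one _
    have h1' : (c' : ℝ) ≤ D * Int.fract (2 ^ n₀ * y') := by
      rw [← hyc']; exact Nat.floor_le (by positivity)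
    have h2' : (D : ℝ) * Int.fract (2 ^ n₀ * y') < c' + 1 := by
      rw [← hyc']; exact Nat.lt_floor_add_one _
    -- the integer j
    obtain ⟨j, hj⟩ : ∃ j : ℤ, (c' : ℤ) - c = 2 ^ K * j := by
      have h3 : ((c' : ℤ) - c) % (2 ^ K) = 0 := by
        have h4 : (c' : ℤ) % (2 ^ K) = (c : ℤ) % (2 ^ K) := by
          have := hcc.symm
          exact_mod_cast congrArg (fun t : ℕ => (t : ℤ)) this
        exact Int.emod_eq_emod_iff_emod_sub_eq_zero.1 h4
      exact Int.dvd_of_emod_eq_zero h3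
    have hj0 : j ≠ 0 := by
      rintro rfl
      apply hne
      have : (c' : ℤ) - c = 0 := by rw [hj]; ring
      omega
    have hjn : |j| < 2 ^ n := by
      have h5 : |(c' : ℤ) - c| < 2 ^ K * 2 ^ n := by
        have h6 : (c : ℤ) < 2 ^ K * 2 ^ n := by exact_mod_cast hcD
        have h7 : (c' : ℤ) < 2 ^ K * 2 ^ n := by exact_mod_cast hcD'
        rw [abs_lt]
        constructor <;> [skip; skip] <;> omega
      rw [hj, abs_mul, abs_of_pos (by positivity : (0 : ℤ) < 2 ^ K)] at h5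
      exact lt_of_mul_lt_mul_left h5 (by positivity)
    -- z
    set z : ℤ := ⌊(2 : ℝ) ^ n₀ * y'⌋ - ⌊(2 : ℝ) ^ n₀ * y⌋ with hz
    set t : ℤ := j + 2 ^ n * z with ht
    have hndvd : ¬ (2 : ℤ) ^ n ∣ t := by
      intro hd
      have h8 : (2 : ℤ) ^ n ∣ j := by
        have : j = t - 2 ^ n * z := by rw [ht]; ring
        rw [this]
        exact dvd_sub hd (dvd_mul_right _ _)
      have h9 := Int.le_of_dvd (abs_pos.2 hj0) ((dvd_abs _ _).2 h8)
      omega
    have ht0 : t ≠ 0 := by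
      intro h0
      apply hndvd
      rw [h0]
      exact dvd_zero _
    obtain ⟨v, d, hd, htv⟩ : ∃ (v : ℕ) (d : ℤ), Odd d ∧ t = 2 ^ v * d := by
      have hfm : FiniteMultiplicity (2 : ℤ) t := Int.finiteMultiplicity_iff.2 ⟨by norm_num, ht0⟩
      obtain ⟨d, htv, hnd⟩ := hfm.exists_eq_pow_mul_and_not_dvd
      refine ⟨multiplicity 2 t, d, ?_, htv⟩
      rw [← Int.not_even_iff_odd, even_iff_two_dvd]
      exact hnd
    have hvn : v < n := by
      by_contra hvn
      push Not at hvn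
      apply hndvd
      rw [htv]
      exact dvd_mul_of_dvd_left (pow_dvd_pow _ hvn) _
    set ρ : ℝ := D * Int.fract (2 ^ n₀ * y') - D * Int.fract (2 ^ n₀ * y) - (c' - c) with hρ
    have hρ1 : |ρ| ≤ 1 := by
      rw [abs_le]
      constructor <;> linarith
    have hkey := hdet y hy (n + n₀ - v) (by omega) (by omega) d hd
      (ρ / (D * 2 ^ n₀)) (by
        rw [abs_div, abs_of_pos (by positivity : (0 : ℝ) < D * 2 ^ n₀), hDr]
        rw [div_mul_eq_mul_div, div_le_one (by positivity)]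
        calc |ρ| * 2 ^ (K + n + n₀) ≤ 1 * 2 ^ (K + n + n₀) := by gcongr
          _ = 2 ^ K * 2 ^ n * 2 ^ n₀ := by rw [pow_add, pow_add, one_mul])
    apply hkey
    have hfin : y + d / 2 ^ (n + n₀ - v) + ρ / (D * 2 ^ n₀) = y' := by
      have e1 : (t : ℝ) = 2 ^ v * d := by rw [htv]; push_cast; ring
      have e2 : (t : ℝ) = j + 2 ^ n * z := by rw [ht]; push_cast; ring
      have e3 : (z : ℝ) = (⌊(2 : ℝ) ^ n₀ * y'⌋ : ℝ) - ⌊(2 : ℝ) ^ n₀ * y⌋ := by
        rw [hz]; push_cast; ring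
      have e4 : ((c' : ℝ) - c) = 2 ^ K * j := by exact_mod_cast congrArg (fun t : ℤ => (t : ℝ)) hj
      have e5 := Int.self_sub_floor ((2 : ℝ) ^ n₀ * y)
      have e6 := Int.self_sub_floor ((2 : ℝ) ^ n₀ * y')
      have e7 : (d : ℝ) / 2 ^ (n + n₀ - v) = t / 2 ^ (n + n₀) := by
        rw [e1]
        have : (2 : ℝ) ^ (n + n₀) = 2 ^ v * 2 ^ (n + n₀ - v) := by
          rw [← pow_add]; congr 1; omega
        rw [this]
        field_simp
      rw [e7, e2, e3, hρ, e4, ← e5, ← e6, hDr, pow_add]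
      field_simp
      ring
    rw [hfin]
    exact hy'
  · have hT := preserving_two_pow h n₀
    have hpr : ∀ c, pr μ D c = μ.real {y : ℝ | ⌊(D : ℝ) * Int.fract (2 ^ n₀ * y)⌋₊ = c} := by
      intro c
      unfold pr
      rw [← hT.measureReal_preimage (measurableSet_floor_eq D c).nullMeasurableSet]
      rfl
    have hmeas : ∀ c, MeasurableSet {y : ℝ | ⌊(D : ℝ) * Int.fract (2 ^ n₀ * y)⌋₊ = c} := by
      intro c
      exact hT.measurable (measurableSet_floor_eq D c)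
    calc ∑ c ∈ range D \ (range D).filter
          (fun c => ∃ y ∈ G, ⌊(D : ℝ) * Int.fract (2 ^ n₀ * y)⌋₊ = c), pr μ D c
        = ∑ c ∈ range D \ (range D).filter
          (fun c => ∃ y ∈ G, ⌊(D : ℝ) * Int.fract (2 ^ n₀ * y)⌋₊ = c),
            μ.real {y : ℝ | ⌊(D : ℝ) * Int.fract (2 ^ n₀ * y)⌋₊ = c} :=
          Finset.sum_congr rfl fun c _ => hpr c
      _ = μ.real (⋃ c ∈ range D \ (range D).filter
          (fun c => ∃ y ∈ G, ⌊(D : ℝ) * Int.fract (2 ^ n₀ * y)⌋₊ = c),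
            {y : ℝ | ⌊(D : ℝ) * Int.fract (2 ^ n₀ * y)⌋₊ = c}) := by
          rw [measureReal_biUnion_finset]
          · intro a _ b _ hab
            rw [Function.onFun, Set.disjoint_left]
            intro x hx hx'
            exact hab (hx.symm.trans hx')
          · intro a _
            exact hmeas a
      _ ≤ μ.real Gᶜ := by
          apply measureReal_mono
          · intro y hy
            simp only [Set.mem_iUnion, Set.mem_ofPred_eq, exists_prop, Finset.mem_sdiff,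
              Finset.mem_filter, Finset.mem_range, not_and] at hy
            obtain ⟨c, ⟨hc1, hc2⟩, hc3⟩ := hy
            intro hyG
            exact hc2 hc1 ⟨y, hyG, hc3⟩
          · exact measure_ne_top _ _

end Helper75.DF
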