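import Mathlib
import Pool.Agent.Helper75.DF.Defs
import Pool.Agent.Helper61.FR.St.P4

/-!
# DF-D7: truncated masses and entropies in one step

Put `D = 2 ^ K`.  By `hp.inv_eq`, `p D a = ∑_{j < 2 ^ n} p (D 2 ^ n) (a + D j)`, and the numbers
`a + D j` (`a < D`, `j < 2 ^ n`) are the elements of `range (D * 2 ^ n)`.  By `hI` for each `a` at most
one of the `c = a + D j` is in `I`; let `δ_a` be the sum of `p (D 2 ^ n) c` over the others, so
`∑ δ_a ≤ b`.
* `step_trunc`: `∑_j min (p c) t ≤ min (p D a) t + δ_a` (monotonicity for the `c ∈ I`,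
  `min (p c) t ≤ p c` for the others; if no `c` is in `I` then `δ_a = p D a` and it is clear).
* `step_ent`: write `P = p D a`.  Then
  `∑_j negMulLog (p c) - negMulLog P = ∑_j p c log (P / p c)`.
  The term `c ∈ I` is at most `P - p c = δ_a` (`x log (P / x) ≤ P - x`).  The sum of the others is at most
  `δ_a log (P / δ_a) + δ_a n log 2` (concavity of `log` or Jensen/log-sum, at most `2 ^ n` terms),
  and `δ log (P / δ) ≤ l δ + P exp (- l)` for every `l ≥ 0`
  (`u log (1 / u) ≤ l u + exp (- l - 1)` for `u = δ / P`).  Sum over `a`, `∑_a P = 1`.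
  (Terms with value `0` are harmless: `Real.log 0 = 0`.)
-/

set_option autoImplicit false

open MeasureTheory Finset

namespace Helper75.DF

open Pool.Agent.Helper61.FR

lemma d7_single {ι : Type*} [DecidableEq ι] (S : Finset ι) (Q : ι → Prop) [DecidablePred Q]
    (hQ : ∀ j ∈ S, ∀ j' ∈ S, Q j → Q j' → j = j') (g : ι → ℝ) (d : ℝ) (hd : 0 ≤ d)
    (hg : ∀ j ∈ S, Q j → g j ≤ d) : ∑ j ∈ S, (if Q j then g j else 0) ≤ d := by
  by_cases h : ∃ j ∈ S, Q j
  · obtain ⟨j0, hj0, hq0⟩ := h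
    rw [Finset.sum_eq_single j0]
    · rw [if_pos hq0]
      exact hg j0 hj0 hq0
    · intro j hj hne
      rw [if_neg]
      intro hq
      exact hne (hQ j hj j0 hj0 hq hq0)
    · intro hn
      exact absurd hj0 hn
  · push Not at h
    rw [Finset.sum_eq_zero]
    · exact hd
    · intro j hj
      rw [if_neg (h j hj)]

lemma d7_trunc {ι : Type*} [DecidableEq ι] (S : Finset ι) (Q : ι → Prop) [DecidablePred Q]
    (hQ : ∀ j ∈ S, ∀ j' ∈ S, Q j → Q j' → j = j') (x : ι → ℝ) (hx : ∀ j ∈ S, 0 ≤ x j)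
    (t : ℝ) (ht : 0 ≤ t) :
    ∑ j ∈ S, min (x j) t ≤ min (∑ j ∈ S, x j) t + ∑ j ∈ S, (if Q j then 0 else x j) := by
  have hP : 0 ≤ ∑ j ∈ S, x j := Finset.sum_nonneg hx
  have h1 : ∀ j ∈ S, min (x j) t ≤ (if Q j then min (x j) t else 0) +
      (if Q j then 0 else x j) := by
    intro j hj
    by_cases hq : Q j
    · simp [hq]
    · simp [hq]
  refine le_trans (Finset.sum_le_sum h1) ?_
  rw [Finset.sum_add_distrib]
  refine add_le_add ?_ le_rfl
  refine d7_single S Q hQ (fun j => min (x j) t) _ (le_min hP ht) ?_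
  intro j hj _
  exact min_le_min (Finset.single_le_sum hx hj) le_rfl

lemma d7_ent {ι : Type*} [DecidableEq ι] (S : Finset ι) (Q : ι → Prop) [DecidablePred Q]
    (hQ : ∀ j ∈ S, ∀ j' ∈ S, Q j → Q j' → j = j') (x : ι → ℝ) (hx : ∀ j ∈ S, 0 ≤ x j)
    (l : ℝ) (_hl : 0 ≤ l) (B : ℝ) (hB : (S.card : ℝ) = B) :
    ∑ j ∈ S, Real.negMulLog (x j) ≤ Real.negMulLog (∑ j ∈ S, x j) +
      (∑ j ∈ S, (if Q j then 0 else x j)) * (1 + Real.log B + l) +
      (∑ j ∈ S, x j) * Real.exp (-l) := by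
  set P := ∑ j ∈ S, x j with hPdef
  set d := ∑ j ∈ S, (if Q j then 0 else x j) with hddef
  have hP : 0 ≤ P := Finset.sum_nonneg hx
  have hf0 : ∀ j ∈ S, 0 ≤ (if Q j then 0 else x j) := by
    intro j hj
    split_ifs
    · exact le_rfl
    · exact hx j hj
  have hd : 0 ≤ d := Finset.sum_nonneg hf0
  have hdP : d ≤ P := by
    refine Finset.sum_le_sum fun j hj => ?_
    split_ifs
    · exact hx j hj
    · exact le_rfl
  have hdx : ∀ j ∈ S, Q j → P - x j = d := by
    intro j hj hq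
    rw [hPdef, hddef, ← Finset.add_sum_erase S x hj,
      ← Finset.add_sum_erase S (fun j => if Q j then 0 else x j) hj]
    simp only [hq, if_true, zero_add, add_sub_cancel_left]
    refine Finset.sum_congr rfl fun i hi => ?_
    rw [if_neg]
    intro hqi
    exact (Finset.mem_erase.1 hi).1 (hQ i (Finset.mem_erase.1 hi).2 j hj hqi hq)
  have e1 : ∑ j ∈ S, Real.negMulLog (x j) = Real.negMulLog P +
      ∑ j ∈ S, x j * (Real.log P - Real.log (x j)) := by
    have : ∀ j ∈ S, x j * (Real.log P - Real.log (x j)) =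
        x j * Real.log P + Real.negMulLog (x j) := by
      intro j _
      rw [Real.negMulLog]
      ring
    rw [Finset.sum_congr rfl this, Finset.sum_add_distrib, ← Finset.sum_mul, ← hPdef,
      Real.negMulLog]
    ring
  have e2 : ∑ j ∈ S, x j * (Real.log P - Real.log (x j)) =
      (∑ j ∈ S, if Q j then x j * (Real.log P - Real.log (x j)) else 0) +
      ∑ j ∈ S, (if Q j then 0 else x j) *
        (Real.log P - Real.log (if Q j then 0 else x j)) := by
    rw [← Finset.sum_add_distrib]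
    refine Finset.sum_congr rfl fun j _ => ?_
    by_cases hq : Q j
    · simp [hq]
    · simp [hq]
  have h3 : (∑ j ∈ S, if Q j then x j * (Real.log P - Real.log (x j)) else 0) ≤ d := by
    refine d7_single S Q hQ _ _ hd ?_
    intro j hj hq
    rcases (hx j hj).eq_or_lt with h | h
    · rw [← h, zero_mul]
      exact hd
    · have hxP : x j ≤ P := Finset.single_le_sum hx hj
      have hPpos : 0 < P := lt_of_lt_of_le h hxP
      have h4 := Real.log_le_sub_one_of_pos (div_pos hPpos h)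
      rw [Real.log_div hPpos.ne' h.ne'] at h4
      have h5 := mul_le_mul_of_nonneg_left h4 h.le
      have h6 : x j * (P / x j - 1) = P - x j := by field_simp
      rw [h6, hdx j hj hq] at h5
      exact h5
  have h4 : ∑ j ∈ S, (if Q j then 0 else x j) *
        (Real.log P - Real.log (if Q j then 0 else x j)) ≤
      d * (Real.log (∑ _j ∈ S, P) - Real.log d) := by
    refine P4.logsum S (fun j => if Q j then 0 else x j) (fun _ => P) hf0 ?_
    intro j hj
    split_ifs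
    · exact hP
    · exact Finset.single_le_sum hx hj
  have h5 : d * (Real.log (∑ _j ∈ S, P) - Real.log d) ≤
      d * (Real.log B + l) + P * Real.exp (-l) := by
    rcases hd.eq_or_lt with h | h
    · rw [← h]
      have := mul_nonneg hP (Real.exp_pos (-l)).le
      simpa using this
    · have hPpos : 0 < P := lt_of_lt_of_le h hdP
      have hSne : S.Nonempty := by
        rcases S.eq_empty_or_nonempty with hS | hS
        · rw [hddef, hS] at h
          simp at h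
        · exact hS
      have hBpos : 0 < B := by
        rw [← hB]
        exact_mod_cast hSne.card_pos
      rw [Finset.sum_const, nsmul_eq_mul, hB, Real.log_mul hBpos.ne' hPpos.ne']
      have h6 := Real.log_le_sub_one_of_pos (div_pos (mul_pos hPpos (Real.exp_pos (-l))) h)
      rw [Real.log_div (mul_pos hPpos (Real.exp_pos (-l))).ne' h.ne',
        Real.log_mul hPpos.ne' (Real.exp_pos _).ne', Real.log_exp] at h6
      have h7 := mul_le_mul_of_nonneg_left h6 h.le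
      have h8 : d * (P * Real.exp (-l) / d - 1) = P * Real.exp (-l) - d := by field_simp
      rw [h8] at h7
      nlinarith
  rw [e1, e2]
  nlinarith

lemma d7_delta {p : ℕ → ℕ → ℝ} (_hp : Profile p) (K n : ℕ) (I : Finset ℕ) (b : ℝ)
    (hb : ∑ c ∈ range (2 ^ K * 2 ^ n) \ I, p (2 ^ K * 2 ^ n) c ≤ b) :
    ∑ a ∈ range (2 ^ K), ∑ j ∈ range (2 ^ n),
      (if a + 2 ^ K * j ∈ I then 0 else p (2 ^ K * 2 ^ n) (a + 2 ^ K * j)) ≤ b := by
  rw [← P4.sum_blocks' (fun c => if c ∈ I then 0 else p (2 ^ K * 2 ^ n) c) (2 ^ K) (2 ^ n)]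
  refine le_trans (le_of_eq ?_) hb
  rw [← Finset.filter_notMem_eq_sdiff, Finset.sum_filter]
  refine Finset.sum_congr rfl fun c _ => ?_
  by_cases hc : c ∈ I
  · simp [hc]
  · simp [hc]

lemma d7_inj (K n : ℕ) (I : Finset ℕ)
    (hI : ∀ c ∈ I, ∀ c' ∈ I, c % 2 ^ K = c' % 2 ^ K → c = c') (a : ℕ) :
    ∀ j ∈ range (2 ^ n), ∀ j' ∈ range (2 ^ n), a + 2 ^ K * j ∈ I → a + 2 ^ K * j' ∈ I →
      j = j' := by
  intro j _ j' _ h h'
  have h1 := hI _ h _ h' (by simp [Nat.add_mul_mod_self_left])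
  have h2 : 2 ^ K * j = 2 ^ K * j' := by omega
  exact Nat.eq_of_mul_eq_mul_left (by positivity) h2

theorem step_trunc {p : ℕ → ℕ → ℝ} (hp : Profile p) (K n : ℕ) (I : Finset ℕ)
    (hI : ∀ c ∈ I, ∀ c' ∈ I, c % 2 ^ K = c' % 2 ^ K → c = c') (b : ℝ)
    (hb : ∑ c ∈ range (2 ^ K * 2 ^ n) \ I, p (2 ^ K * 2 ^ n) c ≤ b) (t : ℝ) (ht : 0 ≤ t) :
    Sm p t (2 ^ K * 2 ^ n) ≤ Sm p t (2 ^ K) + b := by
  have hD : 1 ≤ 2 ^ K := Nat.one_le_two_pow
  have hδ := d7_delta hp K n I b hb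
  have hbl := P4.sum_blocks' (fun c => min (p (2 ^ K * 2 ^ n) c) t) (2 ^ K) (2 ^ n)
  unfold Sm
  rw [hbl]
  have h1 : ∀ a ∈ range (2 ^ K), ∑ j ∈ range (2 ^ n), min (p (2 ^ K * 2 ^ n) (a + 2 ^ K * j)) t ≤
      min (p (2 ^ K) a) t + ∑ j ∈ range (2 ^ n),
        (if a + 2 ^ K * j ∈ I then 0 else p (2 ^ K * 2 ^ n) (a + 2 ^ K * j)) := by
    intro a ha
    rw [hp.inv_eq (2 ^ K) n a hD (mem_range.1 ha)]
    exact d7_trunc (range (2 ^ n)) (fun j => a + 2 ^ K * j ∈ I) (d7_inj K n I hI a)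
      (fun j => p (2 ^ K * 2 ^ n) (a + 2 ^ K * j)) (fun j _ => hp.nonneg _ _) t ht
  refine le_trans (Finset.sum_le_sum h1) ?_
  rw [Finset.sum_add_distrib]
  exact add_le_add le_rfl hδ

theorem step_ent {p : ℕ → ℕ → ℝ} (hp : Profile p) (K n : ℕ) (I : Finset ℕ)
    (hI : ∀ c ∈ I, ∀ c' ∈ I, c % 2 ^ K = c' % 2 ^ K → c = c') (b : ℝ)
    (hb : ∑ c ∈ range (2 ^ K * 2 ^ n) \ I, p (2 ^ K * 2 ^ n) c ≤ b) (l : ℝ) (hl : 0 ≤ l) :
    ent p (2 ^ K * 2 ^ n) ≤ ent p (2 ^ K) + b * (1 + n * Real.log 2 + l) + Real.exp (-l) := by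
  have hD : 1 ≤ 2 ^ K := Nat.one_le_two_pow
  have hδ := d7_delta hp K n I b hb
  have hbl := P4.sum_blocks' (fun c => Real.negMulLog (p (2 ^ K * 2 ^ n) c)) (2 ^ K) (2 ^ n)
  unfold ent
  rw [hbl]
  have h1 : ∀ a ∈ range (2 ^ K),
      ∑ j ∈ range (2 ^ n), Real.negMulLog (p (2 ^ K * 2 ^ n) (a + 2 ^ K * j)) ≤
      Real.negMulLog (p (2 ^ K) a) + (∑ j ∈ range (2 ^ n),
        (if a + 2 ^ K * j ∈ I then 0 else p (2 ^ K * 2 ^ n) (a + 2 ^ K * j))) *
          (1 + n * Real.log 2 + l) + p (2 ^ K) a * Real.exp (-l) := by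
    intro a ha
    rw [hp.inv_eq (2 ^ K) n a hD (mem_range.1 ha)]
    have h2 := d7_ent (range (2 ^ n)) (fun j => a + 2 ^ K * j ∈ I) (d7_inj K n I hI a)
      (fun j => p (2 ^ K * 2 ^ n) (a + 2 ^ K * j)) (fun j _ => hp.nonneg _ _) l hl
      ((2 : ℝ) ^ n) (by simp)
    rw [Real.log_pow] at h2
    exact h2
  refine le_trans (Finset.sum_le_sum h1) ?_
  rw [Finset.sum_add_distrib, Finset.sum_add_distrib, ← Finset.sum_mul, ← Finset.sum_mul,
    hp.sum_eq_one _ hD, one_mul]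
  have h3 : 0 ≤ 1 + n * Real.log 2 + l := by
    have := Real.log_nonneg (by norm_num : (1 : ℝ) ≤ 2)
    positivity
  have h4 := mul_le_mul_of_nonneg_right hδ h3
  linarith

end Helper75.DF
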