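import Mathlib
import Pool.Agent.Helper75.DF.Defs
import Pool.Agent.Helper61.FR.St.P6
import Pool.Agent.Helper75.DF.St.D5
import Pool.Agent.Helper75.DF.St.D6
import Pool.Agent.Helper75.DF.St.D7

/-!
# DF-D8: one block step and its iteration

* `iterate_steps`: from `A` to `2 A` in at most `A / nm + 1` steps of length `nm` (the last one
  shorter).
* `typ_fract`, `measurableSet_typ`: `cnt 1 N (nbhd r U)` is invariant under integer translations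
  (`nbhd r U + z = nbhd r U`, `3 ^ k` integer) and `nbhd r U` is a finite/countable union of closed
  intervals.
* `block`: `G = Typ r U q`, `hit_structure` with `G` and `n₀`, the hypothesis `hdet` from `not_both`
  with `W`: for `n₀ < k ≤ n₀ + n ≤ W q` and `|τ| 2 ^ (K + n + n₀) ≤ 1`, because
  `3 ^ (2 ^ q) * 2 ^ (r + 1) ≤ 2 ^ (2 * 2 ^ q) ≤ 2 ^ K` for `q` large in terms of `r`
  (`(4 / 3) ^ (2 ^ q) ≥ 2 ^ (r + 1)`).  Then `step_trunc`, `step_ent`.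
-/

set_option autoImplicit false

open MeasureTheory Finset

namespace Helper75.DF

open Pool.Agent.Helper61.FR

theorem iterate_steps (F : ℕ → ℝ) (A nm : ℕ) (hnm : 1 ≤ nm) (c : ℝ) (hc : 0 ≤ c)
    (hF : ∀ K n, A ≤ K → K + n ≤ 2 * A → n ≤ nm → F (K + n) ≤ F K + c) :
    F (2 * A) ≤ F A + c * ((A : ℝ) / nm + 1) := by
  have h1 : ∀ i : ℕ, i * nm ≤ A → F (A + i * nm) ≤ F A + c * i := by
    intro i
    induction i with
    | zero => intro _; simp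
    | succ i ih =>
      intro hi
      have h2 : (i + 1) * nm = i * nm + nm := by ring
      have h3 := ih (by omega)
      have h4 := hF (A + i * nm) nm (by omega) (by omega) le_rfl
      rw [h2, ← Nat.add_assoc]
      push_cast
      linarith
  have h5 : (A / nm) * nm + A % nm = A := by
    rw [Nat.mul_comm]; exact Nat.div_add_mod A nm
  have h6 := h1 (A / nm) (by omega)
  have h7 := hF (A + A / nm * nm) (A % nm) (by omega) (by omega) (Nat.mod_lt _ (by omega)).le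
  have h8 : A + A / nm * nm + A % nm = 2 * A := by omega
  rw [h8] at h7
  have h9 : ((A / nm : ℕ) : ℝ) ≤ (A : ℝ) / nm := Nat.cast_div_le
  have h10 : c * ((A / nm : ℕ) : ℝ) ≤ c * ((A : ℝ) / nm) := mul_le_mul_of_nonneg_left h9 hc
  linarith

theorem isClosed_nbhd_aux (r : ℕ) (U : Finset ℕ) : MeasurableSet (nbhd r U) := by
  have h1 : nbhd r U = ⋃ u ∈ U, ⋃ z : ℤ, {y : ℝ | |y - z - (u + 1 / 2) / 2 ^ r| ≤ 3 / 4 / 2 ^ r} := by
    ext y
    simp [nbhd]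
  rw [h1]
  refine Finset.measurableSet_biUnion _ fun u _ => MeasurableSet.iUnion fun z => ?_
  exact measurableSet_le (by fun_prop) measurable_const

theorem measurableSet_typ (r : ℕ) (U : Finset ℕ) (q : ℕ) : MeasurableSet (Typ r U q) := by
  classical
  have h1 : ∀ x : ℝ, cnt 1 (2 ^ q) (nbhd r U) x =
      ∑ j ∈ range (2 ^ q), if (3 : ℝ) ^ j * x ∈ nbhd r U then 1 else 0 := by
    intro x
    rw [cnt_one, Finset.card_filter]
  have h2 : Measurable fun x : ℝ => cnt 1 (2 ^ q) (nbhd r U) x := by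
    simp_rw [h1]
    refine Finset.measurable_sum _ fun j _ => ?_
    refine Measurable.ite ?_ measurable_const measurable_const
    exact (measurable_const_mul ((3 : ℝ) ^ j)) (isClosed_nbhd_aux r U)
  have h3 : Typ r U q = (fun x : ℝ => cnt 1 (2 ^ q) (nbhd r U) x) ⁻¹' {n | 7 * 2 ^ q ≤ 8 * n} := by
    ext x; rfl
  rw [h3]
  exact h2 (Set.to_countable _).measurableSet

theorem three_pow_mul_le (r q : ℕ) (hq : r + 2 ≤ q) : 3 ^ (2 ^ q) * 2 ^ (r + 1) ≤ 2 ^ 2 ^ (q + 1) := by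
  have h1 : 3 * (r + 1) ≤ 2 ^ q := by
    have h2 : 2 ^ (r + 2) ≤ 2 ^ q := Nat.pow_le_pow_right (by norm_num) hq
    have h3 : r < 2 ^ r := Nat.lt_two_pow_self
    have h4 : 2 ^ (r + 2) = 4 * 2 ^ r := by ring
    omega
  obtain ⟨s, hs⟩ := Nat.exists_eq_add_of_le h1
  have h5 : 2 ^ 2 ^ (q + 1) = 4 ^ (2 ^ q) := by
    rw [show (4 : ℕ) = 2 ^ 2 by norm_num, ← pow_mul]
    congr 1
    ring
  rw [h5, hs, pow_add 3 (3 * (r + 1)) s, pow_add 4 (3 * (r + 1)) s, pow_mul, pow_mul]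
  have h6 : (3 ^ 3) ^ (r + 1) * 2 ^ (r + 1) ≤ (4 ^ 3) ^ (r + 1) := by
    rw [← mul_pow]
    exact Nat.pow_le_pow_left (by norm_num) _
  have h7 : 3 ^ s ≤ 4 ^ s := Nat.pow_le_pow_left (by norm_num) _
  calc (3 ^ 3) ^ (r + 1) * 3 ^ s * 2 ^ (r + 1) = ((3 ^ 3) ^ (r + 1) * 2 ^ (r + 1)) * 3 ^ s := by ring
    _ ≤ (4 ^ 3) ^ (r + 1) * 4 ^ s := Nat.mul_le_mul h6 h7

theorem block {μ : Measure ℝ} (h : Inv23 μ) (r : ℕ) (U : Finset ℕ) (hU : 48 * U.card ^ 2 < 2 ^ r) :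
    ∃ n₀ : ℕ, ∀ W : ℕ → ℕ, Window W → ∃ q₀ : ℕ, ∀ q, q₀ ≤ q → ∀ K n, 2 ^ (q + 1) ≤ K →
      n + n₀ ≤ W q →
      (∀ t : ℝ, 0 ≤ t →
        Sm (pr μ) t (2 ^ (K + n)) ≤ Sm (pr μ) t (2 ^ K) + μ.real (Typ r U q)ᶜ) ∧
      ∀ l : ℝ, 0 ≤ l → ent (pr μ) (2 ^ (K + n)) ≤
        ent (pr μ) (2 ^ K) + μ.real (Typ r U q)ᶜ * (1 + n * Real.log 2 + l) + Real.exp (-l) := by
  obtain ⟨n₀, hn₀⟩ := not_both r U hU
  refine ⟨n₀, fun W hW => ?_⟩
  obtain ⟨q₁, hq₁⟩ := hn₀ W hW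
  refine ⟨max q₁ (r + 2), fun q hq K n hK hn => ?_⟩
  have hqa : q₁ ≤ q := (le_max_left _ _).trans hq
  have hqb : r + 2 ≤ q := (le_max_right _ _).trans hq
  have hdet : ∀ y ∈ Typ r U q, ∀ k, n₀ < k → k ≤ n₀ + n → ∀ d : ℤ, Odd d → ∀ τ : ℝ,
      |τ| * 2 ^ (K + n + n₀) ≤ 1 → y + d / 2 ^ k + τ ∉ Typ r U q := by
    intro y hy k hk1 hk2 d hd τ hτ
    refine hq₁ q hqa k hk1.le (by omega) d hd τ y ?_ hy
    refine le_trans ?_ hτ
    rw [mul_assoc]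
    refine mul_le_mul_of_nonneg_left ?_ (abs_nonneg τ)
    have h1 : (3 : ℝ) ^ (2 ^ q) * 2 ^ (r + 1) ≤ 2 ^ 2 ^ (q + 1) := by
      exact_mod_cast three_pow_mul_le r q hqb
    refine h1.trans (pow_le_pow_right₀ (by norm_num) (by omega))
  obtain ⟨I, hI, hb⟩ := hit_structure h n₀ n K (Typ r U q) (measurableSet_typ r U q) hdet
  have hp : Profile (pr μ) := profile_pr h
  have h2 : 2 ^ (K + n) = 2 ^ K * 2 ^ n := pow_add 2 K n
  rw [h2]
  exact ⟨fun t ht => step_trunc hp K n I hI _ hb t ht, fun l hl => step_ent hp K n I hI _ hb l hl⟩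

end Helper75.DF
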