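import Mathlib
import Pool.Agent.Helper75.DF.Defs
import Pool.Agent.Helper61.FR.St.P1
import Pool.Agent.Helper61.FR.St.P4
import Pool.Agent.Helper75.DF.St.D8

/-!
# DF-D9: entropies and truncated masses at the levels `2 ^ (2 ^ Q)`

Put `q = Q - 1`, so `μ.real (Typ r U q)ᶜ ≤ 2 Cb / 2 ^ Q`, and apply `iterate_steps` with `A = 2 ^ Q`
and `block` with `nm = C q - n₀`, `C q / 2 ≤ nm ≤ 2 ^ Q` for `Q` large, so
`2 ^ Q / nm + 1 ≤ 2 * 2 ^ Q / nm ≤ 8 * 2 ^ Q / (C Q)`.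
* `scale_trunc_gen`: the same with a general window.
* `scale_trunc`: the increment is at most `(2 Cb / 2 ^ Q) (8 * 2 ^ Q / (C Q)) = 16 Cb / (C Q)`.
* `scale_ent`: use `C = 2`, `l = Q` (or `C = 2`, any): each step costs at most
  `(2 Cb / 2 ^ Q) (1 + 2 Q + Q) + exp (- Q)`, and there are at most `4 * 2 ^ Q / Q` steps, so the
  increment from `Q` to `Q + 1` is at most a constant for `Q ≥ Q₀`; for `Q < Q₀` use any bound, e.g.
  `ent_le_log` (`Pool.Agent.Helper61.FR.St.P4`).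
Note `Cb ≥ 0` (take `q = 0`).
-/

set_option autoImplicit false

open MeasureTheory Finset

namespace Helper75.DF

open Pool.Agent.Helper61.FR

theorem scale_trunc_gen {μ : Measure ℝ} (h : Inv23 μ) (r : ℕ) (U : Finset ℕ)
    (hU : 48 * U.card ^ 2 < 2 ^ r) (W : ℕ → ℕ) (hW : Window W) :
    ∃ n₀ q₀ : ℕ, ∀ q : ℕ, q₀ ≤ q → n₀ < W q → ∀ t : ℝ, 0 ≤ t →
      Sm (pr μ) t (2 ^ (2 ^ (q + 2))) ≤ Sm (pr μ) t (2 ^ (2 ^ (q + 1))) +
        μ.real (Typ r U q)ᶜ * (2 ^ (q + 1) / ((W q : ℝ) - n₀) + 1) := by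
  obtain ⟨n₀, hn⟩ := block h r U hU
  obtain ⟨q₀, hq⟩ := hn W hW
  refine ⟨n₀, q₀, fun q hqq hWq t ht => ?_⟩
  have key := iterate_steps (fun K => Sm (pr μ) t (2 ^ K)) (2 ^ (q + 1)) (W q - n₀) (by omega)
    (μ.real (Typ r U q)ᶜ) measureReal_nonneg ?_
  · have e1 : 2 * 2 ^ (q + 1) = 2 ^ (q + 2) := by ring
    rw [e1] at key
    refine key.trans (le_of_eq ?_)
    rw [Nat.cast_sub hWq.le]
    push_cast
    rfl
  · intro K n hK _ hn
    exact (hq q hqq K n hK (by omega)).1 t ht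

theorem sq_le_pow (Q : ℕ) : Q * Q ≤ 4 * 2 ^ Q := by
  induction Q using Nat.strong_induction_on with
  | _ Q ih =>
    rcases Nat.lt_or_ge Q 4 with h | h
    · interval_cases Q <;> norm_num
    · obtain ⟨k, rfl⟩ : ∃ k, Q = k + 1 := ⟨Q - 1, by omega⟩
      have h1 := ih k (by omega)
      rw [pow_succ]
      nlinarith

theorem scale_trunc {μ : Measure ℝ} (h : Inv23 μ) (r : ℕ) (U : Finset ℕ)
    (hU : 48 * U.card ^ 2 < 2 ^ r) (Cb : ℝ) (hb : ∀ q, μ.real (Typ r U q)ᶜ ≤ Cb / 2 ^ q)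
    (C : ℕ) (hC : 1 ≤ C) :
    ∃ Q₀ : ℕ, ∀ Q : ℕ, Q₀ ≤ Q → ∀ t : ℝ, 0 ≤ t →
      Sm (pr μ) t (2 ^ (2 ^ (Q + 1))) ≤ Sm (pr μ) t (2 ^ (2 ^ Q)) + 16 * Cb / (C * Q) := by
  obtain ⟨n₀, q₀, hq⟩ := scale_trunc_gen h r U hU (fun q => C * q) (window_mul C)
  have hCb : 0 ≤ Cb := by
    have := hb 0
    have h1 : 0 ≤ μ.real (Typ r U 0)ᶜ := measureReal_nonneg
    simpa using h1.trans this
  refine ⟨q₀ + C + 2 * n₀ + 4, fun Q hQ t ht => ?_⟩
  obtain ⟨q, rfl⟩ : ∃ q, Q = q + 1 := ⟨Q - 1, by omega⟩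
  have hW : n₀ < C * q := by
    have : q ≤ C * q := Nat.le_mul_of_pos_left q hC
    omega
  have h1 := hq q (by omega) hW t ht
  refine h1.trans (add_le_add le_rfl ?_)
  have hC0 : (1 : ℝ) ≤ C := by exact_mod_cast hC
  have hq0 : (C : ℝ) + 2 * n₀ + 3 ≤ q := by
    exact_mod_cast (by omega : C + 2 * n₀ + 3 ≤ q)
  have hn0 : (0 : ℝ) ≤ n₀ := Nat.cast_nonneg _
  have hq1 : (0 : ℝ) < q + 1 := by linarith
  have h2 : (C : ℝ) * (q + 1) / 4 ≤ ((C * q : ℕ) : ℝ) - n₀ := by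
    push_cast
    nlinarith
  have h3 : (C : ℝ) * (q + 1) ≤ 4 * 2 ^ (q + 1) := by
    have h4 : C * (q + 1) ≤ 4 * 2 ^ (q + 1) :=
      (Nat.mul_le_mul_right _ (by omega : C ≤ q + 1)).trans (sq_le_pow (q + 1))
    exact_mod_cast h4
  have hCq : (0 : ℝ) < C * (q + 1) := by positivity
  have hbq := hb q
  have h2q : (0 : ℝ) < 2 ^ q := by positivity
  calc μ.real (Typ r U q)ᶜ * (2 ^ (q + 1) / (((C * q : ℕ) : ℝ) - n₀) + 1)
      ≤ Cb / 2 ^ q * (2 ^ (q + 1) / ((C : ℝ) * (q + 1) / 4) + 4 * 2 ^ (q + 1) / (C * (q + 1))) := by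
        have h5 : (2 : ℝ) ^ (q + 1) / (((C * q : ℕ) : ℝ) - n₀) ≤
            2 ^ (q + 1) / ((C : ℝ) * (q + 1) / 4) := by
          gcongr
        have h6 : (1 : ℝ) ≤ 4 * 2 ^ (q + 1) / (C * (q + 1)) := by
          rw [one_le_div hCq]
          exact h3
        have h7 : (0 : ℝ) ≤ 2 ^ (q + 1) / (((C * q : ℕ) : ℝ) - n₀) := by
          apply div_nonneg (by positivity)
          linarith
        apply mul_le_mul hbq (add_le_add h5 h6) (by positivity) (by positivity)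
    _ = 16 * Cb / (C * ((q + 1 : ℕ) : ℝ)) := by
        push_cast
        field_simp
        ring

theorem scale_ent {μ : Measure ℝ} (h : Inv23 μ) (r : ℕ) (U : Finset ℕ)
    (hU : 48 * U.card ^ 2 < 2 ^ r) (Cb : ℝ) (hb : ∀ q, μ.real (Typ r U q)ᶜ ≤ Cb / 2 ^ q) :
    ∃ C₁ : ℝ, ∀ Q : ℕ, ent (pr μ) (2 ^ (2 ^ Q)) ≤ C₁ * (Q + 1) := by
  obtain ⟨n₀, hn⟩ := block h r U hU
  obtain ⟨q₀, hq⟩ := hn (fun q => 2 * q) (window_mul 2)
  have hCb : 0 ≤ Cb := by
    have := hb 0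
    have h1 : 0 ≤ μ.real (Typ r U 0)ᶜ := measureReal_nonneg
    simpa using h1.trans this
  have hl2 : 0 < Real.log 2 := Real.log_pos (by norm_num)
  have hl2' : Real.log 2 ≤ 1 := by linarith [Real.log_two_lt_d9]
  set Q₁ : ℕ := q₀ + n₀ + 4 with hQ₁
  -- one step
  have step : ∀ Q, Q₁ ≤ Q →
      ent (pr μ) (2 ^ (2 ^ (Q + 1))) ≤ ent (pr μ) (2 ^ (2 ^ Q)) + (24 * Cb + 3) := by
    intro Q hQ
    obtain ⟨q, rfl⟩ : ∃ q, Q = q + 1 := ⟨Q - 1, by omega⟩
    set nm : ℕ := 2 * q - n₀ with hnm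
    set c : ℝ := μ.real (Typ r U q)ᶜ * (1 + nm * Real.log 2 + (q + 1 : ℕ)) +
      Real.exp (-((q + 1 : ℕ) : ℝ)) with hc
    have hb0 : 0 ≤ μ.real (Typ r U q)ᶜ := measureReal_nonneg
    have hc0 : 0 ≤ c := by positivity
    have key := iterate_steps (fun K => ent (pr μ) (2 ^ K)) (2 ^ (q + 1)) nm (by omega) c hc0 ?_
    · have e1 : 2 * 2 ^ (q + 1) = 2 ^ (q + 1 + 1) := by ring
      rw [e1] at key
      refine key.trans (add_le_add le_rfl ?_)
      have hq1 : (1 : ℝ) ≤ ((q + 1 : ℕ) : ℝ) := by exact_mod_cast (by omega : 1 ≤ q + 1)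
      set s : ℝ := ((q + 1 : ℕ) : ℝ) with hs
      have hnm1 : s / 2 ≤ nm := by
        rw [div_le_iff₀ (by norm_num), hs]
        exact_mod_cast (by omega : q + 1 ≤ nm * 2)
      have hnm2 : (nm : ℝ) ≤ 2 * s := by
        rw [hs]
        exact_mod_cast (by omega : nm ≤ 2 * (q + 1))
      have h2s : s ≤ 2 ^ (q + 1) := by
        rw [hs]
        exact_mod_cast Nat.lt_two_pow_self.le
      have h2q : (0 : ℝ) < 2 ^ (q + 1) := by positivity
      have hexp : Real.exp (-s) ≤ 1 / 2 ^ (q + 1) := by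
        rw [Real.exp_neg, inv_eq_one_div]
        apply one_div_le_one_div_of_le h2q
        rw [hs]
        calc (2 : ℝ) ^ (q + 1) ≤ Real.exp 1 ^ (q + 1) := by
              apply pow_le_pow_left₀ (by norm_num)
              have := Real.add_one_le_exp 1
              linarith
          _ = Real.exp ((q + 1 : ℕ) : ℝ) := by
              rw [← Real.exp_nat_mul]
              simp
      have hbq : μ.real (Typ r U q)ᶜ ≤ 2 * Cb / 2 ^ (q + 1) := by
        refine (hb q).trans (le_of_eq ?_)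
        rw [pow_succ]
        field_simp
      have hc1 : c ≤ (8 * Cb * s + 1) / 2 ^ (q + 1) := by
        have h5 : 1 + nm * Real.log 2 + s ≤ 4 * s := by nlinarith
        have h6 : (0 : ℝ) ≤ 1 + nm * Real.log 2 + s := by positivity
        calc c ≤ 2 * Cb / 2 ^ (q + 1) * (4 * s) + 1 / 2 ^ (q + 1) := by
              rw [hc]
              gcongr
          _ = _ := by ring
      have hst : ((2 ^ (q + 1) : ℕ) : ℝ) / nm + 1 ≤ 3 * 2 ^ (q + 1) / s := by
        have h7 : ((2 ^ (q + 1) : ℕ) : ℝ) / nm ≤ 2 ^ (q + 1) / (s / 2) := by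
          push_cast
          gcongr
        have h8 : (1 : ℝ) ≤ 2 ^ (q + 1) / s := by
          rw [one_le_div (by linarith)]
          exact h2s
        calc ((2 ^ (q + 1) : ℕ) : ℝ) / nm + 1 ≤ 2 ^ (q + 1) / (s / 2) + 2 ^ (q + 1) / s := by
              linarith
          _ = _ := by
              field_simp
              norm_num
      calc c * (((2 ^ (q + 1) : ℕ) : ℝ) / nm + 1)
          ≤ (8 * Cb * s + 1) / 2 ^ (q + 1) * (3 * 2 ^ (q + 1) / s) := by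
            apply mul_le_mul hc1 hst (by positivity) (by positivity)
        _ = 24 * Cb + 3 / s := by
            field_simp
            ring
        _ ≤ 24 * Cb + 3 := by
            have : 3 / s ≤ 3 := div_le_self (by norm_num) hq1
            linarith
    · intro K n hK _ hn
      have h9 := (hq q (by omega) K n hK (by omega)).2 ((q + 1 : ℕ) : ℝ) (by positivity)
      have hn' : (n : ℝ) ≤ nm := by exact_mod_cast hn
      refine h9.trans ?_
      rw [hc, add_assoc]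
      gcongr
  -- induction
  have main : ∀ Q : ℕ, ent (pr μ) (2 ^ (2 ^ Q)) ≤ 2 ^ Q₁ + (24 * Cb + 3) * Q := by
    intro Q
    induction Q with
    | zero =>
      have h1 := ent_le_log (profile_pr h) (2 ^ (2 ^ 0)) Nat.one_le_two_pow
      have h2 : (1 : ℝ) ≤ 2 ^ Q₁ := one_le_pow₀ (by norm_num)
      norm_num at h1 ⊢
      linarith
    | succ Q ih =>
      rcases Nat.lt_or_ge Q Q₁ with hQ | hQ
      · have h1 := ent_le_log (profile_pr h) (2 ^ (2 ^ (Q + 1))) Nat.one_le_two_pow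
        have h2 : Real.log ((2 ^ (2 ^ (Q + 1)) : ℕ) : ℝ) ≤ 2 ^ Q₁ := by
          push_cast
          rw [Real.log_pow]
          push_cast
          calc (2 : ℝ) ^ (Q + 1) * Real.log 2 ≤ 2 ^ (Q + 1) * 1 := by gcongr
            _ = 2 ^ (Q + 1) := mul_one _
            _ ≤ 2 ^ Q₁ := pow_le_pow_right₀ (by norm_num) hQ
        have h3 : (0 : ℝ) ≤ (24 * Cb + 3) * ((Q + 1 : ℕ) : ℝ) := by positivity
        linarith
      · have h1 := step Q hQ
        push_cast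
        linarith
  refine ⟨2 ^ Q₁ + (24 * Cb + 3), fun Q => (main Q).trans ?_⟩
  have h1 : (0 : ℝ) ≤ 2 ^ Q₁ := by positivity
  have h2 : (0 : ℝ) ≤ Q := Nat.cast_nonneg _
  nlinarith

end Helper75.DF
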