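import Mathlib
import Pool.Agent.Helper75.DF.Defs
import Pool.Agent.Helper61.FR.St.P2
import Pool.Agent.Helper61.FR.St.P10

/-!
# DF-D1: complete sums vanish, differences of powers of 3

`P2.two_pow_dvd_three_pow_sub_one : 3 ≤ L → (2 ^ L ∣ 3 ^ n - 1 ↔ 2 ^ (L - 2) ∣ n)` is in
`Pool.Agent.Helper61.FR.St.P2` (check its exact name there).

* `sum_complete`: put `T = 2 ^ (k - 3)`.  Then `2 ^ (k - 1) ∣ 3 ^ T - 1` and not
  `2 ^ k ∣ 3 ^ T - 1`, so `3 ^ T = 1 + 2 ^ (k - 1) * odd` and, as `d 3 ^ j` is odd,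
  `d 3 ^ (j + T) / 2 ^ k` differs from `d 3 ^ j / 2 ^ k` by an odd multiple of `1 / 2`, so
  `f (j + T) = - f j` for `f j = e (d 3 ^ j / 2 ^ k)`.  Hence the sum over `2 T = 2 ^ (k - 2)`
  consecutive integers is `0`, and `2 ^ (k - 2)` divides `2 ^ q`.
* `three_pow_sub_one_eq`: for `s ≥ 1`, `u ≥ 1`, with `v = padicValNat 2 u` the number
  `3 ^ (u * 2 ^ s) - 1` is `2 ^ (s + 2 + v)` times an odd number (same divisibility criterion).
-/

set_option autoImplicit false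

open Finset

namespace Helper75.DF

open Pool.Agent.Helper61.FR

theorem D1.e_half_odd (o : ℤ) (ho : Odd o) : e (o / 2 : ℝ) = -1 := by
  obtain ⟨t, rfl⟩ := ho
  have h1 : (((2 * t + 1 : ℤ) : ℝ) / 2) = (t : ℝ) + 1 / 2 := by push_cast; ring
  rw [h1, e_add, e_int, one_mul]
  unfold e
  have h2 : (2 * Real.pi * ((1 / 2 : ℝ) : ℂ) * Complex.I : ℂ) = Real.pi * Complex.I := by
    push_cast; ring
  rw [h2, Complex.exp_pi_mul_I]

theorem D1.three_pow (s u : ℕ) (hs : 1 ≤ s) (hu : 1 ≤ u) :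
    ∃ o : ℕ, Odd o ∧ 3 ^ (u * 2 ^ s) = 1 + 2 ^ (s + 2 + padicValNat 2 u) * o := by
  have hF : Fact (Nat.Prime 2) := ⟨Nat.prime_two⟩
  have hn : 0 < u * 2 ^ s := by positivity
  have he : Even (u * 2 ^ s) := by
    obtain ⟨s', rfl⟩ := Nat.exists_eq_add_of_le hs
    exact ⟨u * 2 ^ s', by rw [pow_add]; ring⟩
  have h := padicValNat.pow_two_sub_pow (x := 3) (y := 1) (by norm_num) (by norm_num) (by norm_num)
    hn.ne' he
  rw [one_pow] at h
  have h4 : padicValNat 2 (3 + 1) = 2 := by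
    have : (3 + 1 : ℕ) = 2 ^ 2 := by norm_num
    rw [this, padicValNat.prime_pow]
  have h2 : padicValNat 2 (3 - 1) = 1 := by
    have : (3 - 1 : ℕ) = 2 ^ 1 := by norm_num
    rw [this, padicValNat.prime_pow]
  have hu2 : padicValNat 2 (u * 2 ^ s) = padicValNat 2 u + s := by
    rw [padicValNat.mul (by omega) (by positivity), padicValNat.prime_pow]
  rw [h4, h2, hu2] at h
  have hv : padicValNat 2 (3 ^ (u * 2 ^ s) - 1) = s + 2 + padicValNat 2 u := by omega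
  have hne : 3 ^ (u * 2 ^ s) - 1 ≠ 0 := by
    have : 3 ^ 1 ≤ 3 ^ (u * 2 ^ s) := Nat.pow_le_pow_right (by norm_num) hn
    omega
  obtain ⟨o, ho⟩ : 2 ^ (s + 2 + padicValNat 2 u) ∣ 3 ^ (u * 2 ^ s) - 1 := by
    rw [← hv]; exact pow_padicValNat_dvd
  refine ⟨o, ?_, ?_⟩
  · rw [← Nat.not_even_iff_odd]
    rintro ⟨r, hr⟩
    have hd : 2 ^ (padicValNat 2 (3 ^ (u * 2 ^ s) - 1) + 1) ∣ 3 ^ (u * 2 ^ s) - 1 := by
      rw [hv]
      exact ⟨r, by rw [ho, hr, pow_succ]; ring⟩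
    exact pow_succ_padicValNat_not_dvd hne hd
  · have hpos : 0 < 3 ^ (u * 2 ^ s) := by positivity
    omega

theorem D1.anti (k : ℕ) (h4 : 4 ≤ k) (d : ℤ) (hd : Odd d) (j : ℕ) :
    e (d * 3 ^ (j + 2 ^ (k - 3)) / 2 ^ k) = - e (d * 3 ^ j / 2 ^ k) := by
  obtain ⟨o, ho, h3⟩ := D1.three_pow (k - 3) 1 (by omega) le_rfl
  rw [one_mul, padicValNat.one, add_zero] at h3
  have hk1 : k - 3 + 2 = k - 1 := by omega
  rw [hk1] at h3
  have h3r : (3 : ℝ) ^ (2 ^ (k - 3)) = 1 + 2 ^ (k - 1) * o := by exact_mod_cast h3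
  have hkk : (2 : ℝ) ^ k = 2 ^ (k - 1) * 2 := by
    rw [← pow_succ]; congr 1; omega
  have h5 : (d * 3 ^ (j + 2 ^ (k - 3)) / 2 ^ k : ℝ)
      = d * 3 ^ j / 2 ^ k + ((d * 3 ^ j * o : ℤ) : ℝ) / 2 := by
    rw [pow_add, h3r, hkk]
    push_cast
    have : (2 : ℝ) ^ (k - 1) ≠ 0 := by positivity
    field_simp
  rw [h5, e_add, D1.e_half_odd, mul_neg_one]
  have hodd3 : Odd ((3 : ℤ) ^ j) := Odd.pow (by decide)
  have hoddo : Odd (o : ℤ) := by exact_mod_cast ho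
  exact (hd.mul hodd3).mul hoddo

theorem sum_complete (q k : ℕ) (h4 : 4 ≤ k) (hk : k ≤ q + 2) (d : ℤ) (hd : Odd d) :
    ∑ j ∈ range (2 ^ q), e (d * 3 ^ j / 2 ^ k) = 0 := by
  set T : ℕ := 2 ^ (k - 3) with hT
  have key : ∀ n : ℕ, ∑ j ∈ range (n * (T + T)), e (d * 3 ^ j / 2 ^ k) = 0 := by
    intro n
    induction n with
    | zero => simp
    | succ n ih =>
      rw [add_mul, one_mul, sum_range_add, ih, zero_add, sum_range_add]
      rw [← sum_add_distrib]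
      apply sum_eq_zero
      intro x _
      have h := D1.anti k h4 d hd (n * (T + T) + x)
      have e1 : n * (T + T) + (T + x) = n * (T + T) + x + 2 ^ (k - 3) := by rw [← hT]; ring
      rw [e1, h, add_neg_cancel]
  have h2q : (2 : ℕ) ^ q = 2 ^ (q + 2 - k) * (T + T) := by
    have : T + T = 2 ^ (k - 2) := by
      rw [hT, ← two_mul, ← pow_succ']; congr 1; omega
    rw [this, ← pow_add]; congr 1; omega
  rw [h2q]
  exact key _

theorem three_pow_sub_one_eq (s u : ℕ) (hs : 1 ≤ s) (hu : 1 ≤ u) :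
    ∃ o : ℕ, Odd o ∧ 3 ^ (u * 2 ^ s) = 1 + 2 ^ (s + 2 + padicValNat 2 u) * o :=
  D1.three_pow s u hs hu

end Helper75.DF
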