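import Mathlib

/-!
# DF-D2: van der Corput inequality

Proof.  For `h < H` the sums `∑_{j < N} f j` and `∑_{j < N} f (j + h S)` differ by at most
`2 h S ≤ 2 H S` in norm.  So `‖∑ f j‖ ≤ 2 H S + ‖∑_{j < N} g j‖`, `g j = H⁻¹ ∑_{h < H} f (j + h S)`.
Cauchy-Schwarz: `‖∑ g j‖ ^ 2 ≤ N ∑ ‖g j‖ ^ 2`, and
`∑_j ‖g j‖ ^ 2 = H⁻² ∑_{h, h'} ∑_j f (j + h' S) * star (f (j + h S))`: the `H` diagonal terms are
at most `N` each, the others at most `η N` (for `h' < h` by complex conjugation).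
-/

set_option autoImplicit false

open Finset

namespace Helper75.DF

private theorem vdc_shift (f : ℕ → ℂ) (hf : ∀ j, ‖f j‖ ≤ 1) (N t : ℕ) :
    ‖∑ j ∈ range N, f j - ∑ j ∈ range N, f (j + t)‖ ≤ 2 * t := by
  have h1 : ∑ j ∈ range (N + t), f j = ∑ j ∈ range N, f j + ∑ j ∈ range t, f (N + j) :=
    Finset.sum_range_add f N t
  have h2 : ∑ j ∈ range (t + N), f j = ∑ j ∈ range t, f j + ∑ j ∈ range N, f (t + j) :=
    Finset.sum_range_add f t N
  have h3 : ∑ j ∈ range N, f (j + t) = ∑ j ∈ range N, f (t + j) :=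
    Finset.sum_congr rfl fun j _ => by rw [add_comm]
  have h4 : ∑ j ∈ range N, f j - ∑ j ∈ range N, f (j + t)
      = ∑ j ∈ range t, f j - ∑ j ∈ range t, f (N + j) := by
    rw [h3]
    rw [add_comm N t] at h1
    have := h1.symm.trans h2
    linear_combination this
  rw [h4]
  have b : ∀ g : ℕ → ℂ, (∀ j, ‖g j‖ ≤ 1) → ‖∑ j ∈ range t, g j‖ ≤ t := by
    intro g hg
    calc ‖∑ j ∈ range t, g j‖ ≤ ∑ j ∈ range t, ‖g j‖ := norm_sum_le _ _
      _ ≤ ∑ j ∈ range t, (1 : ℝ) := Finset.sum_le_sum fun j _ => hg j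
      _ = t := by simp
  calc ‖∑ j ∈ range t, f j - ∑ j ∈ range t, f (N + j)‖
      ≤ ‖∑ j ∈ range t, f j‖ + ‖∑ j ∈ range t, f (N + j)‖ := norm_sub_le _ _
    _ ≤ t + t := add_le_add (b f hf) (b (fun j => f (N + j)) fun j => hf _)
    _ = 2 * t := by ring

theorem vdc (f : ℕ → ℂ) (hf : ∀ j, ‖f j‖ ≤ 1) (N S H : ℕ) (hH : 1 ≤ H) (η : ℝ) (hη : 0 ≤ η)
    (hc : ∀ h h', h < h' → h' < H →
      ‖∑ j ∈ range N, f (j + h' * S) * star (f (j + h * S))‖ ≤ η * N) :
    ‖∑ j ∈ range N, f j‖ ≤ 2 * (H * S : ℕ) + N * √(1 / H + η) := by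
  have hH0 : (0 : ℝ) < H := by exact_mod_cast hH
  -- the sums over the blocks
  set G : ℕ → ℂ := fun j => ∑ h ∈ range H, f (j + h * S) with hG
  set F : ℂ := ∑ j ∈ range N, f j with hF
  -- step 1
  have h1 : ‖(H : ℂ) * F - ∑ j ∈ range N, G j‖ ≤ H * (2 * (H * S : ℕ)) := by
    have e1 : (H : ℂ) * F - ∑ j ∈ range N, G j
        = ∑ h ∈ range H, (F - ∑ j ∈ range N, f (j + h * S)) := by
      rw [Finset.sum_sub_distrib, hG, Finset.sum_comm]
      simp
    rw [e1]
    calc ‖∑ h ∈ range H, (F - ∑ j ∈ range N, f (j + h * S))‖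
        ≤ ∑ h ∈ range H, ‖F - ∑ j ∈ range N, f (j + h * S)‖ := norm_sum_le _ _
      _ ≤ ∑ h ∈ range H, (2 * (H * S : ℕ) : ℝ) := by
          refine Finset.sum_le_sum fun h hh => ?_
          refine (vdc_shift f hf N (h * S)).trans ?_
          have : h * S ≤ H * S := Nat.mul_le_mul_right _ (Finset.mem_range.1 hh).le
          have : ((h * S : ℕ) : ℝ) ≤ (H * S : ℕ) := by exact_mod_cast this
          linarith
      _ = H * (2 * (H * S : ℕ)) := by simp
  -- step 2: Cauchy-Schwarz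
  have h2 : ‖∑ j ∈ range N, G j‖ ^ 2 ≤ N * ∑ j ∈ range N, ‖G j‖ ^ 2 := by
    calc ‖∑ j ∈ range N, G j‖ ^ 2 ≤ (∑ j ∈ range N, ‖G j‖) ^ 2 :=
          pow_le_pow_left₀ (norm_nonneg _) (norm_sum_le _ _) 2
      _ ≤ ((range N).card : ℝ) * ∑ j ∈ range N, ‖G j‖ ^ 2 := sq_sum_le_card_mul_sum_sq
      _ = N * ∑ j ∈ range N, ‖G j‖ ^ 2 := by simp
  -- step 3: correlations
  have h3 : ∑ j ∈ range N, ‖G j‖ ^ 2
      ≤ ∑ h' ∈ range H, ∑ h ∈ range H,
        ‖∑ j ∈ range N, f (j + h' * S) * star (f (j + h * S))‖ := by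
    have e1 : ((∑ j ∈ range N, ‖G j‖ ^ 2 : ℝ) : ℂ)
        = ∑ h' ∈ range H, ∑ h ∈ range H,
          ∑ j ∈ range N, f (j + h' * S) * star (f (j + h * S)) := by
      have e2 : ∀ j, ((‖G j‖ ^ 2 : ℝ) : ℂ)
          = ∑ h' ∈ range H, ∑ h ∈ range H, f (j + h' * S) * star (f (j + h * S)) := by
        intro j
        have : ((‖G j‖ ^ 2 : ℝ) : ℂ) = G j * star (G j) := by
          rw [Complex.star_def, Complex.mul_conj, Complex.normSq_eq_norm_sq]
        rw [this, hG]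
        simp only [star_sum]
        rw [Finset.sum_mul_sum]
      rw [Complex.ofReal_sum]
      simp only [e2]
      rw [Finset.sum_comm]
      refine Finset.sum_congr rfl fun h' _ => ?_
      rw [Finset.sum_comm]
    have e3 : ‖((∑ j ∈ range N, ‖G j‖ ^ 2 : ℝ) : ℂ)‖ = ∑ j ∈ range N, ‖G j‖ ^ 2 := by
      rw [Complex.norm_real, Real.norm_of_nonneg]
      exact Finset.sum_nonneg fun j _ => by positivity
    rw [← e3, e1]
    refine (norm_sum_le _ _).trans (Finset.sum_le_sum fun h' _ => norm_sum_le _ _)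
  have h4 : ∀ h' ∈ range H, ∀ h ∈ range H,
      ‖∑ j ∈ range N, f (j + h' * S) * star (f (j + h * S))‖
        ≤ (if h = h' then (N : ℝ) else 0) + η * N := by
    intro h' hh' h hh
    rw [Finset.mem_range] at hh hh'
    rcases lt_trichotomy h h' with hlt | heq | hgt
    · rw [if_neg hlt.ne]
      simpa using hc h h' hlt hh'
    · rw [if_pos heq]
      have : ‖∑ j ∈ range N, f (j + h' * S) * star (f (j + h * S))‖ ≤ N := by
        calc ‖∑ j ∈ range N, f (j + h' * S) * star (f (j + h * S))‖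
            ≤ ∑ j ∈ range N, ‖f (j + h' * S) * star (f (j + h * S))‖ := norm_sum_le _ _
          _ ≤ ∑ j ∈ range N, (1 : ℝ) := by
              refine Finset.sum_le_sum fun j _ => ?_
              rw [norm_mul, norm_star]
              exact mul_le_one₀ (hf _) (norm_nonneg _) (hf _)
          _ = N := by simp
      have h0 : 0 ≤ η * N := by positivity
      linarith
    · rw [if_neg hgt.ne']
      have e1 : ∑ j ∈ range N, f (j + h' * S) * star (f (j + h * S))
          = star (∑ j ∈ range N, f (j + h * S) * star (f (j + h' * S))) := by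
        rw [star_sum]
        refine Finset.sum_congr rfl fun j _ => ?_
        rw [star_mul', star_star, mul_comm]
      rw [e1, norm_star]
      simpa using hc h' h hgt hh
  have h5 : ∑ j ∈ range N, ‖G j‖ ^ 2 ≤ H * N + H * (H * (η * N)) := by
    refine h3.trans ?_
    calc ∑ h' ∈ range H, ∑ h ∈ range H,
          ‖∑ j ∈ range N, f (j + h' * S) * star (f (j + h * S))‖
        ≤ ∑ h' ∈ range H, ∑ h ∈ range H, ((if h = h' then (N : ℝ) else 0) + η * N) :=
          Finset.sum_le_sum fun h' hh' => Finset.sum_le_sum fun h hh => h4 h' hh' h hh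
      _ = ∑ h' ∈ range H, ((N : ℝ) + H * (η * N)) := by
          refine Finset.sum_congr rfl fun h' hh' => ?_
          rw [Finset.sum_add_distrib, Finset.sum_ite_eq', if_pos hh']
          simp
      _ = H * N + H * (H * (η * N)) := by
          rw [Finset.sum_const, Finset.card_range, nsmul_eq_mul]
          ring
  have h6 : ‖∑ j ∈ range N, G j‖ ≤ H * (N * √(1 / H + η)) := by
    have hs : 0 ≤ 1 / (H : ℝ) + η := by positivity
    refine abs_le_of_sq_le_sq' ?_ (by positivity) |>.2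
    rw [mul_pow, mul_pow, Real.sq_sqrt hs]
    calc ‖∑ j ∈ range N, G j‖ ^ 2 ≤ N * ∑ j ∈ range N, ‖G j‖ ^ 2 := h2
      _ ≤ N * (H * N + H * (H * (η * N))) := by gcongr
      _ = H ^ 2 * (N ^ 2 * (1 / H + η)) := by
          field_simp
  have h7 : H * ‖F‖ ≤ H * (2 * (H * S : ℕ) + N * √(1 / H + η)) := by
    calc H * ‖F‖ = ‖(H : ℂ) * F‖ := by rw [norm_mul, Complex.norm_natCast]
      _ = ‖((H : ℂ) * F - ∑ j ∈ range N, G j) + ∑ j ∈ range N, G j‖ := by rw [sub_add_cancel]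
      _ ≤ ‖(H : ℂ) * F - ∑ j ∈ range N, G j‖ + ‖∑ j ∈ range N, G j‖ := norm_add_le _ _
      _ ≤ H * (2 * (H * S : ℕ)) + H * (N * √(1 / H + η)) := add_le_add h1 h6
      _ = H * (2 * (H * S : ℕ) + N * √(1 / H + η)) := by ring
  exact le_of_mul_le_mul_left h7 hH0

end Helper75.DF
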